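import Pool.Agent.Lib.MP_42043b_gt.Defs

/-! Elementary facts on placed sides: reversal, turning, affine changes, two-sided windows. -/

namespace Pool.Agent.Lib.MP_42043b_gt

variable {E : Type} {σ ι : E → E} {v v' : E → ℂ}

/-- The scalar product. -/
def dt (a z : ℂ) : ℝ := a.re * z.re + a.im * z.im

theorem cr_add (a z w : ℂ) : cr a (z + w) = cr a z + cr a w := by simp [cr]; ring
theorem cr_sub (a z w : ℂ) : cr a (z - w) = cr a z - cr a w := by simp [cr]; ring
theorem cr_neg (a z : ℂ) : cr (-a) z = -cr a z := by simp [cr]; ring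
theorem dt_sub (a z w : ℂ) : dt a (z - w) = dt a z - dt a w := by simp [dt]; ring
theorem dt_neg (a z : ℂ) : dt (-a) z = -dt a z := by simp [dt]; ring
theorem cr_I (a z : ℂ) : cr (-(Complex.I * a)) z = dt a z := by simp [cr, dt]; ring

theorem cr_mul (r a z : ℂ) : cr (r * a) (r * z) = ‖r‖ ^ 2 * cr a z := by
  rw [Complex.sq_norm, Complex.normSq_apply]; simp [cr]; ring

theorem lagr (a z : ℂ) : cr a z ^ 2 + dt a z ^ 2 = ‖a‖ ^ 2 * ‖z‖ ^ 2 := by
  rw [Complex.sq_norm, Complex.sq_norm, Complex.normSq_apply, Complex.normSq_apply, cr, dt]; ring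

theorem cr_le (a z : ℂ) : |cr a z| ≤ ‖a‖ * ‖z‖ :=
  abs_le_of_sq_le_sq' (by rw [mul_pow, ← lagr]; nlinarith [sq_nonneg (dt a z)]) (by positivity)
    |> abs_le.2

theorem dt_le (a z : ℂ) : |dt a z| ≤ ‖a‖ * ‖z‖ :=
  abs_le_of_sq_le_sq' (by rw [mul_pow, ← lagr]; nlinarith [sq_nonneg (cr a z)]) (by positivity)
    |> abs_le.2

theorem unit_sq {u : ℂ} (h : ‖u‖ = 1) : u.re ^ 2 + u.im ^ 2 = 1 := by
  have := Complex.sq_norm u
  rw [h, Complex.normSq_apply] at this
  linarith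

theorem Flat.ne (h : Flat σ ι v) (e : E) : v e ≠ 0 := fun h0 => by
  have := h.pos e
  simp [h0, cr] at this

/-- The side is placed with its true length. -/
def Val (v : E → ℂ) (x : E × ℂ × ℂ) : Prop := ‖x.2.2 - x.2.1‖ = ‖v x.1‖

/-- The same side seen from the other triangle. -/
def rev (ι : E → E) (x : E × ℂ × ℂ) : E × ℂ × ℂ := (ι x.1, x.2.2, x.2.1)

/-- The next side of the same triangle. -/
noncomputable def turn (σ : E → E) (v : E → ℂ) (x : E × ℂ × ℂ) : E × ℂ × ℂ :=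
  (σ x.1, x.2.2, third σ v x)

/-- The line crosses the open side. -/
def Sep (u : ℂ) (c : ℝ) (x : E × ℂ × ℂ) : Prop := cr u x.2.2 < c ∧ c < cr u x.2.1

theorem sep_rev {u : ℂ} {c : ℝ} {x : E × ℂ × ℂ} : Sep u c (rev ι x) ↔ Sep (-u) (-c) x := by
  simp only [Sep, rev, cr_neg]
  constructor <;> rintro ⟨h1, h2⟩ <;> constructor <;> linarith

/-- The line meets the closed side. -/
def SepW (u : ℂ) (c : ℝ) (x : E × ℂ × ℂ) : Prop := u ≠ 0 ∧ cr u x.2.2 ≤ c ∧ c ≤ cr u x.2.1

theorem sepW_rev {u : ℂ} {c : ℝ} {x : E × ℂ × ℂ} : SepW u c (rev ι x) ↔ SepW (-u) (-c) x := by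
  simp only [SepW, rev, cr_neg, neg_ne_zero]
  refine and_congr_right fun _ => ?_
  constructor <;> rintro ⟨h1, h2⟩ <;> constructor <;> linarith

theorem rev_rev (hι : ∀ e, ι (ι e) = e) (x : E × ℂ × ℂ) : rev ι (rev ι x) = x := by
  simp [rev, hι]

theorem third_turn (h : Flat σ ι v) (x : E × ℂ × ℂ) : third σ v (turn σ v x) = x.2.1 := by
  have h1 := h.ne x.1
  have h2 := h.ne (σ x.1)
  have h3 : v (σ (σ x.1)) = -(v x.1 + v (σ x.1)) := by linear_combination h.sum x.1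
  simp only [third, turn, h3]
  field_simp
  ring

theorem turn2 (h : Flat σ ι v) (x : E × ℂ × ℂ) :
    turn σ v (turn σ v x) = (σ (σ x.1), third σ v x, x.2.1) := by
  rw [turn, third_turn h]; rfl

theorem turn3 (hσ : ∀ e, σ (σ (σ e)) = e) (h : Flat σ ι v) (x : E × ℂ × ℂ) :
    turn σ v (turn σ v (turn σ v x)) = x := by
  rw [turn2 h, third_turn h]
  simp [turn, hσ]

theorem step_true (x : E × ℂ × ℂ) : step σ ι v true x = rev ι (turn σ v x) := rfl

theorem step_false (h : Flat σ ι v) (x : E × ℂ × ℂ) :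
    step σ ι v false x = rev ι (turn σ v (turn σ v x)) := by rw [turn2 h]; rfl

theorem step_back (hσ : ∀ e, σ (σ (σ e)) = e) (hι : ∀ e, ι (ι e) = e) (h : Flat σ ι v) (b : Bool)
    (x : E × ℂ × ℂ) : step σ ι v (!b) (rev ι (step σ ι v b x)) = rev ι x := by
  cases b
  · rw [step_false h, rev_rev hι, Bool.not_false, step_true, turn3 hσ h]
  · rw [step_true, rev_rev hι, Bool.not_true, step_false h, turn3 hσ h]

theorem Val.rot (h : Flat σ ι v) {x : E × ℂ × ℂ} (hx : Val v x) :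
    ‖(x.2.2 - x.2.1) / v x.1‖ = 1 := by
  rw [norm_div, hx, div_self (norm_ne_zero_iff.2 (h.ne _))]

theorem Val.rev (h : Flat σ ι v) {x : E × ℂ × ℂ} (hx : Val v x) : Val v (rev ι x) :=
  (norm_sub_rev _ _).trans (hx.trans (h.len _).symm)

theorem Val.turn (h : Flat σ ι v) {x : E × ℂ × ℂ} (hx : Val v x) : Val v (turn σ v x) := by
  simp only [Val, MP_42043b_gt.turn, third, add_sub_cancel_left, norm_mul, hx.rot h, one_mul]

theorem Val.step (h : Flat σ ι v) {x : E × ℂ × ℂ} (hx : Val v x) (b : Bool) :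
    Val v (step σ ι v b x) := by
  cases b
  · exact step_false h x ▸ ((hx.turn h).turn h).rev h
  · exact (hx.turn h).rev h

theorem Val.dev (h : Flat σ ι v) {x : E × ℂ × ℂ} (hx : Val v x) (b : ℕ → Bool) (k : ℕ) :
    Val v (dev σ ι v x b k) := by
  induction k with
  | zero => exact hx
  | succ k ih => exact ih.step h _

theorem Val.area (h : Flat σ ι v) {x : E × ℂ × ℂ} (hx : Val v x) :
    cr (x.2.2 - x.2.1) (third σ v x - x.2.2) = cr (v x.1) (v (σ x.1)) := by
  have h1 := cr_mul ((x.2.2 - x.2.1) / v x.1) (v x.1) (v (σ x.1))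
  rw [hx.rot h, div_mul_cancel₀ _ (h.ne _)] at h1
  simpa [third] using h1

theorem step_fst {x x' : E × ℂ × ℂ} (h : x.1 = x'.1) (b : Bool) :
    (step σ ι v b x).1 = (step σ ι v' b x').1 := by
  cases b <;> simp [step, h]

theorem dev_succ (x : E × ℂ × ℂ) (b : ℕ → Bool) (k : ℕ) :
    dev σ ι v x b (k + 1) = dev σ ι v (step σ ι v (b 0) x) (fun i => b (i + 1)) k := by
  induction k with
  | zero => rfl
  | succ k ih => rw [dev, ih]; rfl

theorem dev_congr (x : E × ℂ × ℂ) {b b' : ℕ → Bool} {k : ℕ} (h : ∀ i < k, b i = b' i) :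
    dev σ ι v x b k = dev σ ι v x b' k := by
  induction k with
  | zero => rfl
  | succ k ih => rw [dev, dev, ih fun i hi => h i (by omega), h k (by omega)]

/-- Image under a complex affine map. -/
def aff (α β : ℂ) (x : E × ℂ × ℂ) : E × ℂ × ℂ := (x.1, α * x.2.1 + β, α * x.2.2 + β)

theorem third_aff (α β : ℂ) (x : E × ℂ × ℂ) : third σ v (aff α β x) = α * third σ v x + β := by
  simp only [third, aff]; ring

theorem step_aff (α β : ℂ) (b : Bool) (x : E × ℂ × ℂ) :
    step σ ι v b (aff α β x) = aff α β (step σ ι v b x) := by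
  cases b <;> simp only [step, third_aff] <;> rfl

theorem dev_aff (α β : ℂ) (x : E × ℂ × ℂ) (b : ℕ → Bool) (k : ℕ) :
    dev σ ι v (aff α β x) b k = aff α β (dev σ ι v x b k) := by
  induction k with
  | zero => rfl
  | succ k ih => rw [dev, ih, step_aff]; rfl

/-- A notion of crossing that is invariant under motions and reversal. -/
structure Crs (ι : E → E) (S : ℂ → ℝ → E × ℂ × ℂ → Prop) : Prop where
  aff : ∀ r β u c y, ‖r‖ = 1 → (S (r * u) (c + cr (r * u) β) (aff r β y) ↔ S u c y)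
  rev : ∀ u c y, S u c (rev ι y) ↔ S (-u) (-c) y

theorem crs_sep : Crs ι Sep :=
  ⟨fun r β u c y r1 => by simp [Sep, aff, cr_add, cr_mul, r1], fun _ _ _ => sep_rev⟩

theorem crs_sepW : Crs ι SepW :=
  ⟨fun r β u c y r1 => by
    have r0 : r ≠ 0 := fun h0 => by simp [h0] at r1
    simp [SepW, aff, cr_add, cr_mul, r1, r0], fun _ _ _ => sepW_rev⟩

variable {S : ℂ → ℝ → E × ℂ × ℂ → Prop}

theorem cuts_iff (hS : Crs ι S) (h : Flat σ ι v) {x : E × ℂ × ℂ} (hx : Val v x) (b : ℕ → Bool)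
    (n : ℕ) : (∃ u c, ∀ k ≤ n, S u c (dev σ ι v (x.1, 0, v x.1) b k)) ↔
      ∃ u c, ∀ k ≤ n, S u c (dev σ ι v x b k) := by
  set r := (x.2.2 - x.2.1) / v x.1 with hr
  have e : x = aff r x.2.1 (x.1, 0, v x.1) := by
    simp [aff, hr, div_mul_cancel₀ _ (h.ne x.1)]
  have r1 : ‖r‖ = 1 := hx.rot h
  have r0 : r ≠ 0 := fun h0 => by simp [h0] at r1
  have key := fun u c y => hS.aff r x.2.1 u c y r1
  constructor
  · rintro ⟨u, c, H⟩
    refine ⟨r * u, c + cr (r * u) x.2.1, fun k hk => ?_⟩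
    have := (key u c _).2 (H k hk)
    rwa [← dev_aff, ← e] at this
  · rintro ⟨u, c, H⟩
    refine ⟨u / r, c - cr u x.2.1, fun k hk => (key _ _ _).1 ?_⟩
    rw [mul_div_cancel₀ _ r0, sub_add_cancel, ← dev_aff, ← e]
    exact H k hk

/-- Two-sided windows. -/
def Win (S : ℂ → ℝ → E × ℂ × ℂ → Prop) (σ ι : E → E) (v : E → ℂ) (x : E × ℂ × ℂ)
    (f g : ℕ → Bool) (n : ℕ) (u : ℂ) (c : ℝ) : Prop :=
  ∀ k ≤ n, S u c (dev σ ι v x f k) ∧ S (-u) (-c) (dev σ ι v (rev ι x) g k)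

theorem concat (hσ : ∀ e, σ (σ (σ e)) = e) (hι : ∀ e, ι (ι e) = e) (h : Flat σ ι v)
    (x : E × ℂ × ℂ) (f g : ℕ → Bool) (n : ℕ) :
    (∀ k ≤ n, dev σ ι v (rev ι (dev σ ι v (rev ι x) g n))
      (fun i => if i < n then !g (n - 1 - i) else f (i - n)) k =
        rev ι (dev σ ι v (rev ι x) g (n - k))) ∧
    ∀ k, dev σ ι v (rev ι (dev σ ι v (rev ι x) g n))
      (fun i => if i < n then !g (n - 1 - i) else f (i - n)) (n + k) = dev σ ι v x f k := by
  have h1 : ∀ k ≤ n, dev σ ι v (rev ι (dev σ ι v (rev ι x) g n))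
      (fun i => if i < n then !g (n - 1 - i) else f (i - n)) k =
        rev ι (dev σ ι v (rev ι x) g (n - k)) := fun k hk => by
    induction k with
    | zero => rfl
    | succ k ih =>
      rw [dev, ih (by omega), if_pos (by omega), show n - k = n - 1 - k + 1 by omega, dev,
        step_back hσ hι h, show n - (k + 1) = n - 1 - k by omega]
  refine ⟨h1, fun k => ?_⟩
  induction k with
  | zero => rw [add_zero, h1 n le_rfl, Nat.sub_self, dev, rev_rev hι, dev]
  | succ k ih => rw [← add_assoc, dev, ih, if_neg (by omega), Nat.add_sub_cancel_left, dev]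

theorem dev_fst {x x' : E × ℂ × ℂ} (h : x.1 = x'.1) (b : ℕ → Bool) (k : ℕ) :
    (dev σ ι v x b k).1 = (dev σ ι v' x' b k).1 := by
  induction k with
  | zero => exact h
  | succ k ih => exact step_fst ih _

theorem win_iff (hS : Crs ι S) (hσ : ∀ e, σ (σ (σ e)) = e) (hι : ∀ e, ι (ι e) = e)
    (h : Flat σ ι v) {x : E × ℂ × ℂ} (hx : Val v x) (f g : ℕ → Bool) (n : ℕ) :
    (∃ u c, ∀ k ≤ n + n, S u c (dev σ ι v (ι (dev σ ι v (rev ι x) g n).1, 0,
      v (ι (dev σ ι v (rev ι x) g n).1))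
      (fun i => if i < n then !g (n - 1 - i) else f (i - n)) k)) ↔
      ∃ u c, Win S σ ι v x f g n u c := by
  obtain ⟨h1, h2⟩ := concat hσ hι h x f g n
  refine (cuts_iff hS h (((hx.rev h).dev h g n).rev h) _ _).trans
    (exists₂_congr fun u c => ⟨fun H k hk => ⟨h2 k ▸ H (n + k) (by omega), ?_⟩, fun H k hk => ?_⟩)
  · have := H (n - k) (by omega)
    rwa [h1 _ (by omega), show n - (n - k) = k by omega, hS.rev] at this
  · rcases le_total k n with h3 | h3
    · rw [h1 k h3, hS.rev]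
      exact (H _ (by omega)).2
    · obtain ⟨j, rfl⟩ := Nat.exists_eq_add_of_le h3
      rw [h2]
      exact (H _ (by omega)).1

end Pool.Agent.Lib.MP_42043b_gt
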