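import Pool.Agent.Lib.MP_42043b_gt.Tri

/-! Mean displacement in the second metric along the parallel lines of the first. -/

namespace Pool.Agent.Lib.MP_42043b_gt

open MeasureTheory Set

variable {E : Type} {σ ι : E → E} {v v' : E → ℂ} {κ C l : ℝ} {u V : ℂ}

theorem int_ite {f g : ℝ → ℝ} (hf : ∀ a b, IntegrableOn f (Ioo a b))
    (hg : ∀ a b, IntegrableOn g (Ioo a b)) (w a b : ℝ) :
    IntegrableOn (fun t => if t ≤ w then f t else g t) (Ioo a b) :=
  Integrable.piecewise (s := Iic w) measurableSet_Iic (hf a b).integrableOn (hg a b).integrableOn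

theorem flux (p q w : ℝ) {f g h : ℝ → ℝ} (hf : ∀ a b, IntegrableOn f (Ioo a b))
    (hg : ∀ a b, IntegrableOn g (Ioo a b)) (hh : ∀ a b, IntegrableOn h (Ioo a b)) :
    (∫ t in Ioo q p, if t ≤ w then g t else h t) + (∫ t in Ioo w q, if t ≤ p then h t else f t) +
      (∫ t in Ioo p w, if t ≤ q then f t else g t) =
    (∫ t in Ioo p q, f t) + (∫ t in Ioo q w, g t) + ∫ t in Ioo w p, h t := by
  have i := fun {f : ℝ → ℝ} {a b : ℝ} (h : IntegrableOn f (Ioo a b)) =>
    h.integrable_indicator measurableSet_Ioo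
  simp only [← integral_indicator measurableSet_Ioo]
  rw [← integral_add' (i (int_ite hg hh _ _ _)) (i (int_ite hh hf _ _ _)),
    ← integral_add' ((i (int_ite hg hh _ _ _)).add (i (int_ite hh hf _ _ _)))
      (i (int_ite hf hg _ _ _)), ← integral_add' (i (hf _ _)) (i (hg _ _)),
    ← integral_add' ((i (hf _ _)).add (i (hg _ _))) (i (hh _ _))]
  refine integral_congr_ae ?_
  filter_upwards [compl_mem_ae_iff.2 ((toFinite {p, q, w}).measure_zero volume)] with t ht
  simp only [mem_compl_iff, mem_insert_iff, mem_singleton_iff, not_or] at ht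
  simp only [Pi.add_apply, indicator_apply, mem_Ioo]
  grind

/-- Twice the midpoint. -/
def mid (x : E × ℂ × ℂ) : ℂ := x.2.1 + x.2.2

/-- Width of the side seen from the direction `u`. -/
noncomputable def wid (u : ℂ) (x : E × ℂ × ℂ) : ℝ := max (cr u x.2.1 - cr u x.2.2) 0

/-- Position in the second metric after `k` steps. -/
noncomputable def gk (σ ι : E → E) (v v' : E → ℂ) (u V : ℂ) (k : ℕ) (x x' : E × ℂ × ℂ) (c : ℝ) : ℝ :=
  cr V (mid (dev σ ι v' x' (wd σ ι v u c true x) k))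

/-- Total displacement after `k` steps. -/
noncomputable def Pk (σ ι : E → E) (v v' : E → ℂ) (u V : ℂ) (k : ℕ) (x x' : E × ℂ × ℂ) : ℝ :=
  (∫ c in Ioo (cr u x.2.2) (cr u x.2.1), gk σ ι v v' u V k x x' c) - wid u x * cr V (mid x')

theorem gk_succ (k : ℕ) (x x' : E × ℂ × ℂ) : gk σ ι v v' u V (k + 1) x x' = fun c =>
    if c ≤ cr u (third σ v x) then gk σ ι v v' u V k (step σ ι v true x) (step σ ι v' true x') c
    else gk σ ι v v' u V k (step σ ι v false x) (step σ ι v' false x') c := funext fun c => by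
  have : nb σ v u c true x = decide (c ≤ cr u (third σ v x)) := by simp [nb, le_iff_lt_or_eq]
  rw [gk, dev_wd_succ, this]
  split_ifs with h
  · rw [decide_eq_true h]; rfl
  · rw [decide_eq_false h]; rfl

theorem gk_int (k : ℕ) : ∀ (x x' : E × ℂ × ℂ) (a b : ℝ),
    IntegrableOn (gk σ ι v v' u V k x x') (Ioo a b) := by
  induction k with
  | zero => exact fun x x' a b => integrableOn_const (C := cr V (mid x')) (by simp)
  | succ k ih => exact fun x x' a b => gk_succ k x x' ▸ int_ite (ih _ _) (ih _ _) _ a b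

theorem Pk_eq (k : ℕ) (x x' : E × ℂ × ℂ) : Pk σ ι v v' u V k x x' =
    ∫ c in Ioo (cr u x.2.2) (cr u x.2.1), (gk σ ι v v' u V k x x' c - cr V (mid x')) := by
  rw [integral_sub (gk_int k x x' _ _) (integrableOn_const (by simp)), setIntegral_const,
    Real.volume_real_Ioo]
  rfl

theorem le_Pk {k : ℕ} {x x' : E × ℂ × ℂ} {B : ℝ}
    (h : ∀ c, Sep u c x → B ≤ gk σ ι v v' u V k x x' c - cr V (mid x')) :
    B * wid u x ≤ Pk σ ι v v' u V k x x' := by
  have := setIntegral_mono_on (integrableOn_const (C := B) (by simp))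
    ((gk_int k x x' _ _).sub (integrableOn_const (by simp))) measurableSet_Ioo fun c hc => h c hc
  rw [setIntegral_const, Real.volume_real_Ioo, smul_eq_mul, mul_comm] at this
  exact this.trans_eq (Pk_eq k x x').symm

theorem Pk_abs (hv' : Flat σ ι v') (hl : ∀ e, ‖v e‖ ≤ l) (hl' : ∀ e, ‖v' e‖ ≤ l) (hu : ‖u‖ = 1)
    (hV : ‖V‖ = 1) (k : ℕ) {x x' : E × ℂ × ℂ} (h : Jt v v' x x') :
    |Pk σ ι v v' u V k x x'| ≤ k * l * l := by
  have l0 : 0 ≤ l := (norm_nonneg _).trans (hl x.1)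
  have h1 : ∀ b, ‖mid (dev σ ι v' x' b k) - mid x'‖ ≤ k * l := fun b => by
    induction k with
    | zero => simp [dev]
    | succ k ih =>
      have hy := h.2.1.dev hv' b k
      rw [dev]
      generalize dev σ ι v' x' b k = y at *
      have : ‖mid (step σ ι v' (b k) y) - mid y‖ ≤ l := by
        generalize b k = t
        have := (hy.step hv' (!t)).trans_le (hl' _)
        cases t
        · simpa [mid, step, norm_sub_rev] using this
        · simpa [mid, step] using this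
      push_cast
      linarith [norm_sub_le_norm_sub_add_norm_sub (mid (step σ ι v' (b k) y)) (mid y) (mid x')]
  rw [Pk_eq, ← Real.norm_eq_abs]
  refine (norm_setIntegral_le_of_norm_le_const (C := k * l) (by simp) fun c _ => ?_).trans ?_
  · rw [gk, ← cr_sub]
    exact (cr_le _ _).trans (by rw [hV, one_mul]; exact h1 _)
  · rw [Real.volume_real_Ioo]
    gcongr
    exact max_le (abs_le.1 (h.1.cr_le hl hu)).2 l0

theorem Pk_aff (k : ℕ) (x x' : E × ℂ × ℂ) (β β' : ℂ) :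
    Pk σ ι v v' u V k (aff 1 β x) (aff 1 β' x') = Pk σ ι v v' u V k x x' := by
  simp only [Pk_eq, ← integral_indicator measurableSet_Ioo]
  rw [← integral_add_right_eq_self _ (cr u β)]
  refine congrArg _ (funext fun c => ?_)
  simp only [indicator_apply, gk, wd_aff, dev_aff]
  simp only [aff, mid, one_mul, cr_add, mem_Ioo, add_lt_add_iff_right]
  split_ifs <;> ring

theorem Pk_tri (X : Ctx σ ι v v' κ C l) (k : ℕ) (x x' : E × ℂ × ℂ) :
    Pk σ ι v v' u V (k + 1) x x' + Pk σ ι v v' u V (k + 1) (turn σ v x) (turn σ v' x') +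
      Pk σ ι v v' u V (k + 1) (turn σ v (turn σ v x)) (turn σ v' (turn σ v' x')) =
    Pk σ ι v v' u V k (rev ι x) (rev ι x') +
      Pk σ ι v v' u V k (rev ι (turn σ v x)) (rev ι (turn σ v' x')) +
      Pk σ ι v v' u V k (rev ι (turn σ v (turn σ v x))) (rev ι (turn σ v' (turn σ v' x'))) +
      (cr u (third σ v x - x.2.2) * cr V (x'.2.2 - x'.2.1) -
        cr u (x.2.2 - x.2.1) * cr V (third σ v' x' - x'.2.2)) := by
  have := flux (cr u x.2.1) (cr u x.2.2) (cr u (third σ v x))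
    (gk_int (σ := σ) (ι := ι) (v := v) (v' := v') (u := u) (V := V) k (rev ι x) (rev ι x'))
    (gk_int (σ := σ) (ι := ι) (v := v) (v' := v') (u := u) (V := V) k (rev ι (turn σ v x))
      (rev ι (turn σ v' x')))
    (gk_int (σ := σ) (ι := ι) (v := v) (v' := v') (u := u) (V := V) k
      (rev ι (turn σ v (turn σ v x))) (rev ι (turn σ v' (turn σ v' x'))))
  have w : ∀ a b : ℝ, max (a - b) 0 = max (b - a) 0 + (a - b) := fun a b => by grind
  simp only [Pk, gk_succ, step_true, step_false X.hv, step_false X.hv', turn3 X.hσ X.hv,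
    turn3 X.hσ X.hv', third_turn X.hv x,
    show third σ v (turn σ v (turn σ v x)) = x.2.2 from third_turn X.hv _]
  have e1 := turn2 X.hv x
  have e2 := turn2 X.hv' x'
  generalize gk σ ι v v' u V k (rev ι (turn σ v (turn σ v x)))
    (rev ι (turn σ v' (turn σ v' x'))) = h at *
  generalize gk σ ι v v' u V k (rev ι (turn σ v x)) (rev ι (turn σ v' x')) = g at *
  generalize gk σ ι v v' u V k (rev ι x) (rev ι x') = f at *
  simp only [e1, e2]
  simp only [turn, rev, wid, mid, cr_add, cr_sub]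
  rw [w (cr u x.2.2) (cr u x.2.1), w (cr u (third σ v x)) (cr u x.2.2),
    w (cr u x.2.1) (cr u (third σ v x))]
  linear_combination this

/-- The linear part attached to a rotated triangle. -/
noncomputable def Lam (σ : E → E) (v v' : E → ℂ) (u : ℂ) (ω : E × ℂ × ℂ) : ℂ :=
  cr u (ω.2.1 * v (σ ω.1)) * (ω.2.2 * v' ω.1) - cr u (ω.2.1 * v ω.1) * (ω.2.2 * v' (σ ω.1))

theorem revC_inv (X : Ctx σ ι v v' κ C l) : Function.Involutive (revC ι v v') := fun ω => by
  have := X.hv.ne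
  have := X.hv'.ne
  simp only [revC, X.hι]
  ext <;> simp only <;> field_simp [*]

theorem avg (X : Ctx σ ι v v' κ C l) (hu : ‖u‖ = 1) (hV : ‖V‖ = 1) {Ω Ω' : Finset (E × ℂ × ℂ)}
    (h1 : Ω ⊆ Ω') (h2 : ∀ ω ∈ Ω, (σ ω.1, ω.2) ∈ Ω) (h3 : ∀ ω ∈ Ω, revC ι v v' ω ∈ Ω')
    (h4 : ∀ ω ∈ Ω', Jt v v' (plc v ω.1 ω.2.1 0) (plc v' ω.1 ω.2.2 0)) (k : ℕ) :
    ∑ ω ∈ Ω, Pk σ ι v v' u V k (plc v ω.1 ω.2.1 0) (plc v' ω.1 ω.2.2 0) ≤
      k / 3 * cr V (∑ ω ∈ Ω, Lam σ v v' u ω) + k ^ 2 * (l * l * (Ω'.card - Ω.card)) := by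
  classical
  let P : ℕ → E × ℂ × ℂ → ℝ := fun k ω =>
    Pk σ ι v v' u V k (plc v ω.1 ω.2.1 0) (plc v' ω.1 ω.2.2 0)
  have hP : ∀ k e ρ ρ' β β', Pk σ ι v v' u V k (plc v e ρ β) (plc v' e ρ' β') = P k (e, ρ, ρ') :=
    fun k e ρ ρ' β β' => by
      rw [← Pk_aff k _ _ (-β) (-β')]
      simp [P, aff, plc]
  have rot : ∀ f : E × ℂ × ℂ → ℝ, ∑ ω ∈ Ω, f (σ ω.1, ω.2) = ∑ ω ∈ Ω, f ω := fun f =>
    Finset.sum_nbij' (fun ω => (σ ω.1, ω.2)) (fun ω => (σ (σ ω.1), ω.2)) h2
      (fun ω h => h2 _ (h2 ω h)) (by simp [X.hσ]) (by simp [X.hσ]) fun _ _ => rfl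
  have hL : cr V (∑ ω ∈ Ω, Lam σ v v' u ω) = ∑ ω ∈ Ω, cr V (Lam σ v v' u ω) := by
    simp [cr, Finset.mul_sum]
  have tri : ∀ k ω, P (k + 1) ω + P (k + 1) (σ ω.1, ω.2) + P (k + 1) (σ (σ ω.1), ω.2) =
      P k (revC ι v v' ω) + P k (revC ι v v' (σ ω.1, ω.2)) + P k (revC ι v v' (σ (σ ω.1), ω.2)) +
        cr V (Lam σ v v' u ω) := fun k ω => by
    have := Pk_tri (u := u) (V := V) X k (plc v ω.1 ω.2.1 0) (plc v' ω.1 ω.2.2 0)
    have t : ∀ {v : E → ℂ}, Flat σ ι v → ∀ ρ, third σ v (plc v ω.1 ρ 0) =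
        0 + ρ * v ω.1 + ρ * v (σ ω.1) := fun h ρ => congrArg (·.2.2) (turn_plc h ω.1 ρ 0)
    simp only [turn_plc X.hv, turn_plc X.hv', rev_plc X.hv, rev_plc X.hv', hP, t X.hv,
      t X.hv'] at this
    refine this.trans (congrArg₂ _ rfl ?_)
    simp [plc, Lam, cr]
    ring
  have hc : (0 : ℝ) ≤ Ω'.card - Ω.card := sub_nonneg.2 (by exact_mod_cast Finset.card_le_card h1)
  have part : ∀ (k : ℕ) (A : Finset (E × ℂ × ℂ)), A ⊆ Ω' → A.card = Ω.card →
      |∑ ω ∈ Ω', P k ω - ∑ ω ∈ A, P k ω| ≤ k * l * l * (Ω'.card - Ω.card) := fun k A hA hc => by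
    rw [← Finset.sum_sdiff hA, add_sub_cancel_right]
    refine (Finset.abs_sum_le_sum_abs _ _).trans ((Finset.sum_le_card_nsmul _ _ _ fun ω hω =>
      Pk_abs X.hv' X.hl X.hl' hu hV k (h4 ω (Finset.mem_sdiff.1 hω).1)).trans_eq ?_)
    rw [nsmul_eq_mul, Finset.cast_card_sdiff hA, hc, mul_comm]
  change ∑ ω ∈ Ω, P k ω ≤ _
  induction k with
  | zero => simp [P, Pk_eq, gk, dev]
  | succ k ih =>
    have s := Finset.sum_congr (rfl : Ω = Ω) fun ω _ => tri k ω
    simp only [Finset.sum_add_distrib] at s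
    rw [rot (fun ω => P (k + 1) (σ ω.1, ω.2)), rot (P (k + 1)),
      rot (fun ω => P k (revC ι v v' (σ ω.1, ω.2))), rot fun ω => P k (revC ι v v' ω), ← hL] at s
    have inj := (revC_inv X).injective
    have a1 := abs_le.1 (part k Ω h1 rfl)
    have a2 := abs_le.1 (part k (Ω.image (revC ι v v')) (Finset.image_subset_iff.2 h3)
      (Finset.card_image_of_injective _ inj))
    rw [Finset.sum_image inj.injOn] at a2
    have := mul_nonneg (mul_self_nonneg l) hc
    push_cast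
    linarith

end Pool.Agent.Lib.MP_42043b_gt
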