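import Mathlib

/-! Flat surfaces glued from triangles, developments along chains of triangles, cutting words. -/

namespace Pool.Agent.Lib.MP_42043b_gt

variable {E : Type}

/-- The determinant of two plane vectors. -/
def cr (a z : ℂ) : ℝ := a.re * z.im - a.im * z.re

/-- Edge vectors of Euclidean triangles whose glued sides have equal lengths. -/
structure Flat (σ ι : E → E) (v : E → ℂ) : Prop where
  sum : ∀ e, v e + v (σ e) + v (σ (σ e)) = 0
  pos : ∀ e, 0 < cr (v e) (v (σ e))
  len : ∀ e, ‖v (ι e)‖ = ‖v e‖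

/-- The third vertex of the triangle laid on the left of the side `e` placed from `p` to `q`. -/
noncomputable def third (σ : E → E) (v : E → ℂ) (x : E × ℂ × ℂ) : ℂ :=
  x.2.2 + (x.2.2 - x.2.1) / v x.1 * v (σ x.1)

/-- Leave the triangle through one of its other two sides and enter the next triangle. -/
noncomputable def step (σ ι : E → E) (v : E → ℂ) (b : Bool) (x : E × ℂ × ℂ) : E × ℂ × ℂ :=
  if b then (ι (σ x.1), third σ v x, x.2.2) else (ι (σ (σ x.1)), x.2.1, third σ v x)

/-- The development of the chain of triangles given by a first placed side and a word. -/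
noncomputable def dev (σ ι : E → E) (v : E → ℂ) (x : E × ℂ × ℂ) (b : ℕ → Bool) : ℕ → E × ℂ × ℂ
  | 0 => x
  | k + 1 => step σ ι v (b k) (dev σ ι v x b k)

/-- A straight line crosses the interiors of the first `n + 1` developed sides. -/
def Cuts (σ ι : E → E) (v : E → ℂ) (e : E) (b : ℕ → Bool) (n : ℕ) : Prop :=
  ∃ (u : ℂ) (c : ℝ), ∀ k ≤ n, cr u (dev σ ι v (e, 0, v e) b k).2.2 < c ∧
    c < cr u (dev σ ι v (e, 0, v e) b k).2.1

/-- A straight line meets the first `n + 1` developed closed sides, in the same direction. -/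
def Meets (σ ι : E → E) (v : E → ℂ) (e : E) (b : ℕ → Bool) (n : ℕ) : Prop :=
  ∃ (u : ℂ) (c : ℝ), u ≠ 0 ∧ ∀ k ≤ n, cr u (dev σ ι v (e, 0, v e) b k).2.2 ≤ c ∧
    c ≤ cr u (dev σ ι v (e, 0, v e) b k).2.1

end Pool.Agent.Lib.MP_42043b_gt
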