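import Pool.Agent.Lib.MP_42043b_gt.Main

/-! Finitely many words fix the second structure up to a small error. -/

namespace Pool.Agent.Lib.MP_42043b_gt

variable {E : Type} {σ ι : E → E}

theorem dev_cont (v : E → ℂ) (e : E) (b : ℕ → Bool) (k : ℕ) :
    ContinuousOn (fun w : E → ℂ => (dev σ ι w (e, 0, w e) b k).2) {w | ∀ d, w d ≠ 0} := by
  induction k with
  | zero => exact (by fun_prop : Continuous fun w : E → ℂ => ((0 : ℂ), w e)).continuousOn
  | succ k ih =>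
    have t : ContinuousOn (fun w : E → ℂ => third σ w (dev σ ι w (e, 0, w e) b k))
        {w | ∀ d, w d ≠ 0} := by
      have : ∀ w : E → ℂ, (dev σ ι w (e, 0, w e) b k).1 = (dev σ ι v (e, 0, v e) b k).1 :=
        fun w => dev_fst (x := (e, 0, w e)) (x' := (e, 0, v e)) rfl b k
      simp only [third, this]
      exact ih.snd.add (((ih.snd.sub ih.fst).div (continuous_apply _).continuousOn
        fun w hw => hw _).mul (continuous_apply _).continuousOn)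
    simp only [dev, step]
    cases b k
    exacts [ih.fst.prodMk t, t.prodMk ih.snd]

theorem finite_data [Finite E] (hσ : ∀ e, σ (σ (σ e)) = e) (hι : ∀ e, ι (ι e) = e) {v : E → ℂ}
    (hv : Flat σ ι v) {α l ε : ℝ} (hα : 0 < α) (hε : 0 < ε) : ∃ N : ℕ, ∀ v', Flat σ ι v' →
      (∀ e, α ≤ cr (v' e) (v' (σ e)) ∧ ‖v' e‖ ≤ l) →
      (∀ e b, ∀ n ≤ N, Cuts σ ι v e b n → Meets σ ι v' e b n) →
      ∃ w, Flat σ ι w ∧ (∀ e, ‖v' e - w e‖ < ε) ∧ ∀ e, ∃ A : ℂ →ₗ[ℝ] ℂ, ∀ b k,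
        A (dev σ ι v (e, 0, v e) b k).2.1 = (dev σ ι w (e, 0, w e) b k).2.1 ∧
        A (dev σ ι v (e, 0, v e) b k).2.2 = (dev σ ι w (e, 0, w e) b k).2.2 := by
  have := Fintype.ofFinite E
  let K : Set (E → ℂ) := {w | (∀ e, w e + w (σ e) + w (σ (σ e)) = 0) ∧ (∀ e, ‖w (ι e)‖ = ‖w e‖) ∧
    ∀ e, α ≤ cr (w e) (w (σ e)) ∧ ‖w e‖ ≤ l}
  have fl : ∀ w ∈ K, Flat σ ι w := fun w h => ⟨h.1, fun e => hα.trans_le (h.2.2 e).1, h.2.1⟩
  have Kc : IsClosed K := by
    simp only [K, cr, Set.ofPred_and, Set.ofPred_forall]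
    exact (isClosed_iInter fun e => isClosed_eq (by fun_prop) (by fun_prop)).inter
      ((isClosed_iInter fun e => isClosed_eq (by fun_prop) (by fun_prop)).inter
        (isClosed_iInter fun e => (isClosed_le (by fun_prop) (by fun_prop)).inter
          (isClosed_le (by fun_prop) (by fun_prop))))
  have Kk : IsCompact K := (isCompact_univ_pi fun _ => isCompact_closedBall (0 : ℂ) l).of_isClosed_subset
    Kc fun w h e _ => by simpa using (h.2.2 e).2
  have Mc : ∀ e b n, IsClosed (K ∩ {w | Meets σ ι w e b n}) := fun e b n => by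
    let D : Set ((E → ℂ) × ℂ × ℝ) := K ×ˢ Metric.sphere 0 1 ×ˢ Set.Icc (-l) l
    have Dk : IsCompact D := Kk.prod ((isCompact_sphere _ _).prod isCompact_Icc)
    have c : ∀ k, ContinuousOn (fun z : (E → ℂ) × ℂ × ℝ => (dev σ ι z.1 (e, 0, z.1 e) b k).2) D :=
      fun k => (dev_cont v e b k).comp continuous_fst.continuousOn fun z hz => (fl _ hz.1).ne
    have cc : ∀ {f : (E → ℂ) × ℂ × ℝ → ℂ}, ContinuousOn f D →
        ContinuousOn (fun z => cr z.2.1 (f z)) D := fun hf => by unfold cr; fun_prop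
    have : K ∩ {w | Meets σ ι w e b n} = Prod.fst '' (D ∩ ⋂ k ≤ n,
        ({z ∈ D | cr z.2.1 (dev σ ι z.1 (e, 0, z.1 e) b k).2.2 ≤ z.2.2} ∩
          {z ∈ D | z.2.2 ≤ cr z.2.1 (dev σ ι z.1 (e, 0, z.1 e) b k).2.1})) := by
      ext w
      constructor
      · rintro ⟨hw, u, c, u0, h⟩
        have n0 := norm_pos_iff.2 u0
        have s : ∀ z, cr (u / ‖u‖) z = cr u z / ‖u‖ := fun z => by simp [cr]; ring
        have n1 : ‖u / ‖u‖‖ = 1 := by simp [n0.ne']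
        have h' : ∀ k ≤ n, cr (u / ‖u‖) (dev σ ι w (e, 0, w e) b k).2.2 ≤ c / ‖u‖ ∧
            c / ‖u‖ ≤ cr (u / ‖u‖) (dev σ ι w (e, 0, w e) b k).2.1 := fun k hk => by
          simp only [s]
          exact ⟨div_le_div_of_nonneg_right (h k hk).1 n0.le,
            div_le_div_of_nonneg_right (h k hk).2 n0.le⟩
        have m : (w, u / ‖u‖, c / ‖u‖) ∈ D := by
          obtain ⟨h1, h2⟩ := h' 0 n.zero_le
          have h3 := abs_le.1 (cr_le (u / ‖u‖) (w e))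
          have h4 := (hw.2.2 e).2
          have h5 := norm_nonneg (w e)
          simp only [dev, show cr (u / ‖u‖) 0 = 0 by simp [cr]] at h1 h2
          rw [n1, one_mul] at h3
          exact ⟨hw, by simpa using n1, by linarith, by linarith⟩
        exact ⟨_, ⟨m, Set.mem_iInter₂.2 fun k hk => ⟨⟨m, (h' k hk).1⟩, m, (h' k hk).2⟩⟩, rfl⟩
      · rintro ⟨z, ⟨hz, h⟩, rfl⟩
        exact ⟨hz.1, z.2.1, z.2.2, fun h0 => by simpa [h0] using hz.2.1, fun k hk =>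
          ⟨(Set.mem_iInter₂.1 h k hk).1.2, (Set.mem_iInter₂.1 h k hk).2.2⟩⟩
    rw [this]
    exact ((Dk.inter_right (isClosed_biInter fun k _ =>
      (Dk.isClosed.isClosed_le (cc (c k).snd) (by fun_prop)).inter
        (Dk.isClosed.isClosed_le (by fun_prop) (cc (c k).fst)))).image continuous_fst).isClosed
  let G : Set (E → ℂ) := {w | Flat σ ι w ∧ ∀ e, ∃ A : ℂ →ₗ[ℝ] ℂ, ∀ b k,
    A (dev σ ι v (e, 0, v e) b k).2.1 = (dev σ ι w (e, 0, w e) b k).2.1 ∧
    A (dev σ ι v (e, 0, v e) b k).2.2 = (dev σ ι w (e, 0, w e) b k).2.2}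
  let T : ℕ → Set (E → ℂ) := fun N => (K ∩ ⋂ e, ⋂ b, ⋂ n ≤ N, ⋂ _ : Cuts σ ι v e b n,
    K ∩ {w | Meets σ ι w e b n}) ∩ (Metric.thickening ε G)ᶜ
  have cl : ∀ N, IsClosed (T N) := fun N => (Kc.inter (isClosed_iInter fun e => isClosed_iInter
    fun b => isClosed_biInter fun n _ => isClosed_iInter fun _ => Mc e b n)).inter
      Metric.isOpen_thickening.isClosed_compl
  by_contra! H
  obtain ⟨w, hw⟩ := IsCompact.nonempty_iInter_of_sequence_nonempty_isCompact_isClosed T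
    (fun N w hw => ⟨⟨hw.1.1, by
      have := hw.1.2
      simp only [Set.mem_iInter] at this ⊢
      exact fun e b n hn => this e b n (by omega)⟩, hw.2⟩) (fun N => by
      obtain ⟨w, h1, h2, h3, h4⟩ := H N
      have k : w ∈ K := ⟨h1.sum, h1.len, h2⟩
      refine ⟨w, ⟨k, by simpa only [Set.mem_iInter] using fun e b n hn h => ⟨k, h3 e b n hn h⟩⟩,
        fun h => ?_⟩
      obtain ⟨z, hz, hd⟩ := Metric.mem_thickening_iff.1 h
      obtain ⟨e, he⟩ := h4 z hz.1 fun e => by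
        simpa [dist_eq_norm] using (dist_le_pi_dist w z e).trans_lt hd
      obtain ⟨A, hA⟩ := hz.2 e
      obtain ⟨b, k, h5⟩ := he A
      exact h5 (hA b k).1 (hA b k).2) (Kk.of_isClosed_subset (cl 0) fun w h => h.1.1) cl
  rw [Set.mem_iInter] at hw
  have f := fl w (hw 0).1.1
  refine (hw 0).2 (Metric.self_subset_thickening hε G ⟨f, affine hσ hι hv f fun e b n h => ?_⟩)
  have := (hw n).1.2
  simp only [Set.mem_iInter] at this
  exact (this e b n le_rfl h).2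

theorem modulus [Finite E] (hσ : ∀ e, σ (σ (σ e)) = e) (hι : ∀ e, ι (ι e) = e) {v : E → ℂ}
    (hv : Flat σ ι v) {α : ℝ} (l : ℝ) (hα : 0 < α) : ∃ δ : ℕ∞ → ℝ, δ ⊤ = 0 ∧
      Filter.Tendsto (fun N : ℕ => δ N) Filter.atTop (nhds 0) ∧ ∀ (N : ℕ∞) v', Flat σ ι v' →
      (∀ e, α ≤ cr (v' e) (v' (σ e)) ∧ ‖v' e‖ ≤ l) →
      (∀ e b (n : ℕ), n ≤ N → Cuts σ ι v e b n → Meets σ ι v' e b n) →
      ∃ w, Flat σ ι w ∧ (∀ e, ‖v' e - w e‖ ≤ δ N) ∧ ∀ e, ∃ A : ℂ →ₗ[ℝ] ℂ, ∀ b k,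
        A (dev σ ι v (e, 0, v e) b k).2.1 = (dev σ ι w (e, 0, w e) b k).2.1 ∧
        A (dev σ ι v (e, 0, v e) b k).2.2 = (dev σ ι w (e, 0, w e) b k).2.2 := by
  classical
  have := Fintype.ofFinite E
  let B : ℝ := |l| + ‖v‖ + 1
  have B0 : 0 < B := by positivity
  let P : ℕ → ℕ → Prop := fun N m => ∀ v', Flat σ ι v' →
    (∀ e, α ≤ cr (v' e) (v' (σ e)) ∧ ‖v' e‖ ≤ l) →
    (∀ e b, ∀ n ≤ N, Cuts σ ι v e b n → Meets σ ι v' e b n) →
    ∃ w, Flat σ ι w ∧ (∀ e, ‖v' e - w e‖ ≤ B / (m + 1)) ∧ ∀ e, ∃ A : ℂ →ₗ[ℝ] ℂ, ∀ b k,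
      A (dev σ ι v (e, 0, v e) b k).2.1 = (dev σ ι w (e, 0, w e) b k).2.1 ∧
      A (dev σ ι v (e, 0, v e) b k).2.2 = (dev σ ι w (e, 0, w e) b k).2.2
  have P0 : ∀ N, P N 0 := fun N v' _ h _ => ⟨v, hv, fun e => by
    have h1 := norm_sub_le (v' e) (v e)
    have h2 := norm_le_pi_norm v e
    have h3 := le_abs_self l
    have h4 := (h e).2
    simp only [B, Nat.cast_zero, zero_add, div_one]
    linarith, fun e => ⟨LinearMap.id, fun _ _ => ⟨rfl, rfl⟩⟩⟩
  let g : ℕ → ℕ := fun N => Nat.findGreatest (P N) N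
  have gt : Filter.Tendsto g Filter.atTop Filter.atTop := Filter.tendsto_atTop_atTop.2 fun m => by
    obtain ⟨N, hN⟩ := finite_data hσ hι hv (l := l) (ε := B / (m + 1)) hα (by positivity)
    refine ⟨max m N, fun M hM => Nat.le_findGreatest (le_of_max_le_left hM) fun v' h1 h2 h3 => ?_⟩
    obtain ⟨w, a1, a2, a3⟩ := hN v' h1 h2 fun e b n hn => h3 e b n (hn.trans (le_of_max_le_right hM))
    exact ⟨w, a1, fun e => (a2 e).le, a3⟩
  refine ⟨fun N => ENat.recTopCoe 0 (fun N => B / (g N + 1)) N, rfl, ?_, fun N v' h1 h2 h3 => ?_⟩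
  · exact tendsto_const_nhds.div_atTop (Filter.tendsto_atTop_add_const_right _ _
      (tendsto_natCast_atTop_atTop.comp gt))
  · induction N with
    | top => exact ⟨v', h1, fun e => by simp, affine hσ hι hv h1 fun e b n => h3 e b n le_top⟩
    | coe N =>
      exact Nat.findGreatest_spec (P := P N) N.zero_le (P0 N) v' h1 h2 fun e b n hn =>
        h3 e b n (by exact_mod_cast hn)

end Pool.Agent.Lib.MP_42043b_gt
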