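import Pool.Agent.Lib.MP_42043b_gt.Avg

/-! Averaging over balls of rotation classes gives one linear map for all directions. -/

namespace Pool.Agent.Lib.MP_42043b_gt

open Filter Topology

variable {E : Type} {σ ι : E → E} {v v' : E → ℂ} {κ C l : ℝ}

theorem balls [Fintype E] (e : E) : ∃ Ω : ℕ → Finset (E × ℂ × ℂ),
    (∀ n ω, ω ∈ Ω n ↔ Reach σ ι v v' e n ω) ∧
      ∀ n, (Ω n).card ≤ Fintype.card E * (n + 1) ^ Fintype.card E := by
  classical
  let F : E × (E → ℕ) → E × ℂ × ℂ := fun a =>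
    (a.1, ∏ d, (-v d / v (ι d)) ^ a.2 d, ∏ d, (-v' d / v' (ι d)) ^ a.2 d)
  have key : ∀ n ω, Reach σ ι v v' e n ω → ∃ m : E → ℕ, (∀ d, m d ≤ n) ∧ ω = F (ω.1, m) :=
    fun n ω h => by
      induction h with
      | base => exact ⟨0, by simp, by simp [F]⟩
      | turn _ ih =>
        obtain ⟨m, h1, h2⟩ := ih
        exact ⟨m, h1, Prod.ext rfl (congrArg Prod.snd h2 :)⟩
      | @rev n ω _ ih =>
        obtain ⟨m, h1, h2⟩ := ih
        refine ⟨m + Pi.single ω.1 1, fun d => add_le_add (h1 d) (by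
          rw [Pi.single_apply]; split_ifs <;> omega), ?_⟩
        have p : ∀ r : E → ℂ, ∏ d, r d ^ (m + Pi.single ω.1 1 : E → ℕ) d =
            (∏ d, r d ^ m d) * r ω.1 := fun r => by
          simp only [Pi.add_apply, pow_add, Finset.prod_mul_distrib]
          simp [Pi.single_apply]
        simp only [F, p]
        rw [h2]
        rfl
      | mono _ ih => exact ih.imp fun m h => ⟨fun d => (h.1 d).trans (Nat.le_succ _), h.2⟩
  refine ⟨fun n => ((Finset.univ ×ˢ Fintype.piFinset fun _ => Finset.range (n + 1)).image F).filter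
    (Reach σ ι v v' e n), fun n ω => Iff.intro (fun h => (Finset.mem_filter.1 h).2) fun h => ?_,
    fun n => (Finset.card_filter_le _ _).trans (Finset.card_image_le.trans_eq (by simp))⟩
  obtain ⟨m, h1, h2⟩ := key n ω h
  exact Finset.mem_filter.2 ⟨Finset.mem_image.2 ⟨(ω.1, m), by simpa [Nat.lt_succ_iff] using h1,
    h2.symm⟩, h⟩

theorem folner {a : ℕ → ℝ} {N k : ℕ} (h0 : 1 ≤ a 0) (h : ∀ n, a n ≤ N * (n + 1 : ℕ) ^ k) {ε : ℝ}
    (hε : 0 < ε) : ∃ n, a (n + 1) - a n ≤ ε * a n := by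
  by_contra! H
  have g : ∀ n, (1 + ε) ^ n ≤ a n := fun n => by
    induction n with
    | zero => simpa using h0
    | succ n ih => rw [pow_succ]; nlinarith [H n]
  have t := ((tendsto_pow_const_div_const_pow_of_one_lt k (r := 1 + ε) (by linarith)).comp
    (tendsto_add_atTop_nat 1)).const_mul (N * (1 + ε))
  rw [mul_zero] at t
  obtain ⟨n, hn⟩ := (t.eventually (gt_mem_nhds one_pos)).exists
  rw [Function.comp, pow_succ, ← mul_div_assoc, div_lt_one (by positivity)] at hn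
  nlinarith [(g n).trans (h n)]

theorem Lam_lin (u : ℂ) (ω : E × ℂ × ℂ) :
    Lam σ v v' u ω = u.re * Lam σ v v' 1 ω + u.im * Lam σ v v' Complex.I ω := by
  simp [Lam, cr]; ring

/-- The direction `U` goes with `u` on all sides reached from `e`. -/
def GU (σ ι : E → E) (v v' : E → ℂ) (κ C : ℝ) (e : E) (u U : ℂ) : Prop :=
  ‖u‖ = 1 ∧ ∀ n ω, Reach σ ι v v' e n ω → ∀ β β',
    Ed σ ι v v' κ C u U (plc v ω.1 ω.2.1 β) (plc v' ω.1 ω.2.2 β')

theorem approx [Finite E] (X : Ctx σ ι v v' κ C l) (e : E) : ∃ η, 0 < η ∧ ∀ δ, 0 < δ →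
    ∃ a : ℂ × ℂ, ‖a.1‖ ≤ 2 * l * l ∧ ‖a.2‖ ≤ 2 * l * l ∧ ∀ u U, GU σ ι v v' κ C e u U →
      |cr U (u.re * a.1 + u.im * a.2)| ≤ δ ∧ η - δ ≤ dt U (u.re * a.1 + u.im * a.2) := by
  have := Fintype.ofFinite E
  obtain ⟨α, -, hα, -, h1, -⟩ := X.hv.consts
  have l0 : 0 < l := (norm_pos_iff.2 (X.hv.ne e)).trans_le (X.hl e)
  have hκ := X.hκ
  obtain ⟨Ω, hΩ, hc⟩ := balls (σ := σ) (ι := ι) (v := v) (v' := v') e
  refine ⟨κ * (α / (2 * l)), by positivity, fun δ hδ => ?_⟩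
  have t : Tendsto (fun T : ℕ => (T : ℝ)) atTop atTop := tendsto_natCast_atTop_atTop
  obtain ⟨T, T1, T2, T3⟩ := ((t.eventually_ge_atTop (12 * l * l / δ)).and
    ((t.eventually_ge_atTop ((2 * C + 2 * l) / κ)).and (t.eventually_gt_atTop 0))).exists
  have base : ∀ n, Reach σ ι v v' e n (e, 1, 1) := fun n => by
    induction n with
    | zero => exact .base
    | succ n ih => exact ih.mono
  have c0 : ∀ n, (1 : ℝ) ≤ (Ω n).card := fun n => by
    exact_mod_cast Finset.card_pos.2 ⟨_, (hΩ n _).2 (base n)⟩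
  obtain ⟨n, hn⟩ := folner (a := fun n => (Ω n).card) (c0 0) (fun n => by exact_mod_cast hc n)
    (ε := δ / (6 * T * (l * l))) (by positivity)
  have N0 : (0 : ℝ) < (Ω n).card := one_pos.trans_le (c0 n)
  have nb : ∀ u : ℂ, ‖u‖ = 1 → ‖(∑ ω ∈ Ω n, Lam σ v v' u ω) / (Ω n).card‖ ≤ 2 * l * l :=
    fun u hu => by
      rw [norm_div, Complex.norm_natCast, div_le_iff₀ N0, mul_comm, ← nsmul_eq_mul]
      refine (norm_sum_le _ _).trans (Finset.sum_le_card_nsmul _ _ _ fun ω hω => ?_)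
      obtain ⟨r1, r2⟩ := ((hΩ n ω).1 hω).unit X
      have b : ∀ d d', ‖(cr u (ω.2.1 * v d) : ℂ) * (ω.2.2 * v' d')‖ ≤ l * l := fun d d' => by
        rw [norm_mul, norm_mul, r2, one_mul, Complex.norm_real]
        exact mul_le_mul ((cr_le _ _).trans (by simpa [hu, r1] using X.hl d)) (X.hl' d')
          (norm_nonneg _) l0.le
      exact (norm_sub_le _ _).trans (by linarith [b (σ ω.1) ω.1, b ω.1 (σ ω.1)])
  refine ⟨((∑ ω ∈ Ω n, Lam σ v v' 1 ω) / (Ω n).card,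
    (∑ ω ∈ Ω n, Lam σ v v' Complex.I ω) / (Ω n).card), nb _ (by simp), nb _ (by simp),
    fun u U ⟨hu, hU⟩ => ?_⟩
  have U1 := (hU 0 _ .base 0 0).1
  have tn : ∀ ω ∈ Ω n, (σ ω.1, ω.2) ∈ Ω n := fun ω h => (hΩ _ _).2 ((hΩ _ _).1 h).turn
  have main : ∀ (V : ℂ) (B : ℝ), ‖V‖ = 1 → (∀ x' b d, Val v' x' →
      (∀ k, Fol σ ι v' κ C x' b U d k) → B ≤ cr V (mid (dev σ ι v' x' b T)) - cr V (mid x')) →
      B * ∑ ω ∈ Ω n, wid u (plc v ω.1 ω.2.1 0) ≤ T / 3 * (Ω n).card * (cr V (u.re *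
        ((∑ ω ∈ Ω n, Lam σ v v' 1 ω) / (Ω n).card) +
        u.im * ((∑ ω ∈ Ω n, Lam σ v v' Complex.I ω) / (Ω n).card)) + δ / 2) := fun V B hV hB => by
    have a := avg X hu hV (Ω := Ω n) (Ω' := Ω (n + 1)) (fun ω h => (hΩ _ _).2 ((hΩ _ _).1 h).mono)
      tn (fun ω h => (hΩ _ _).2 ((hΩ _ _).1 h).rev) (fun ω h => ((hΩ _ _).1 h).jt X 0 0) T
    have b : ∑ ω ∈ Ω n, Lam σ v v' u ω = ((Ω n).card : ℝ) * (u.re *
        ((∑ ω ∈ Ω n, Lam σ v v' 1 ω) / (Ω n).card) +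
        u.im * ((∑ ω ∈ Ω n, Lam σ v v' Complex.I ω) / (Ω n).card)) := by
      have : ((Ω n).card : ℂ) ≠ 0 := by exact_mod_cast N0.ne'
      rw [Finset.sum_congr rfl fun ω _ => Lam_lin u ω, Finset.sum_add_distrib, ← Finset.mul_sum,
        ← Finset.mul_sum]
      push_cast
      field_simp
    have c : ∀ (r : ℝ) z, cr V (r * z) = r * cr V z := fun r z => by simp [cr]; ring
    rw [b, c] at a
    have d : (T : ℝ) ^ 2 * (l * l * ((Ω (n + 1)).card - (Ω n).card)) ≤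
        T ^ 2 * (l * l * (δ / (6 * T * (l * l)) * (Ω n).card)) := by gcongr
    have d' : (T : ℝ) ^ 2 * (l * l * (δ / (6 * T * (l * l)) * (Ω n).card)) =
        T / 3 * (Ω n).card * (δ / 2) := by field_simp; ring
    rw [Finset.mul_sum]
    refine (Finset.sum_le_sum fun ω hω => le_Pk (k := T) fun c hc => ?_).trans
      (a.trans (by linarith))
    obtain ⟨d, hd⟩ := (hU _ _ ((hΩ _ _).1 hω) 0 0).2.1 c hc
    exact hB _ _ d (((hΩ _ _).1 hω).jt X 0 0).2.1 hd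
  have w1 : ∑ ω ∈ Ω n, wid u (plc v ω.1 ω.2.1 0) ≤ (Ω n).card * l := by
    rw [← nsmul_eq_mul]
    exact Finset.sum_le_card_nsmul _ _ _ fun ω h =>
      max_le (abs_le.1 ((((hΩ _ _).1 h).jt X 0 0).1.cr_le X.hl hu)).2 l0.le
  have w2 : (Ω n).card * (α / (2 * l)) ≤ 3 * ∑ ω ∈ Ω n, wid u (plc v ω.1 ω.2.1 0) := by
    have rot : ∀ f : E × ℂ × ℂ → ℝ, ∑ ω ∈ Ω n, f (σ ω.1, ω.2) = ∑ ω ∈ Ω n, f ω := fun f =>
      Finset.sum_nbij' (fun ω => (σ ω.1, ω.2)) (fun ω => (σ (σ ω.1), ω.2)) tn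
        (fun ω h => tn _ (tn ω h)) (by simp [X.hσ]) (by simp [X.hσ]) fun _ _ => rfl
    have r1 := rot fun ω => wid u (plc v ω.1 ω.2.1 0)
    have r2 := rot fun ω => wid u (plc v (σ ω.1) ω.2.1 0)
    have := Finset.card_nsmul_le_sum (Ω n) (fun ω => wid u (plc v ω.1 ω.2.1 0) +
      wid u (plc v (σ ω.1) ω.2.1 0) + wid u (plc v (σ (σ ω.1)) ω.2.1 0)) (α / (2 * l))
      fun ω h => by
        have r := (((hΩ _ _).1 h).unit X).1
        have s := congrArg (fun z => cr u (ω.2.1 * z)) (X.hv.sum ω.1)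
        have z : cr u 0 = 0 := by simp [cr]
        simp only [mul_add, cr_add, mul_zero, z] at s
        have a1 := cr_mul ω.2.1 (v ω.1) (v (σ ω.1))
        rw [r, cr_unit hu] at a1
        have b : ∀ d, |dt u (ω.2.1 * v d)| ≤ l := fun d =>
          (dt_le _ _).trans (by simpa [hu, r] using X.hl d)
        have a2 : |dt u (ω.2.1 * v ω.1) * cr u (ω.2.1 * v (σ ω.1))| ≤
            l * |cr u (ω.2.1 * v (σ ω.1))| := by rw [abs_mul]; gcongr; exact b _
        have a3 : |cr u (ω.2.1 * v ω.1) * dt u (ω.2.1 * v (σ ω.1))| ≤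
            |cr u (ω.2.1 * v ω.1)| * l := by rw [abs_mul]; gcongr; exact b _
        have a4 : (|cr u (ω.2.1 * v ω.1)| + |cr u (ω.2.1 * v (σ ω.1))|) / 2 ≤
            max (0 - cr u (ω.2.1 * v ω.1)) 0 + max (0 - cr u (ω.2.1 * v (σ ω.1))) 0 +
              max (0 - cr u (ω.2.1 * v (σ (σ ω.1)))) 0 := by grind
        simp only [wid, plc, zero_add, z]
        refine le_trans ?_ a4
        rw [div_le_div_iff₀ (by positivity) two_pos]
        linarith [h1 ω.1, (abs_le.1 a2).2, (abs_le.1 a3).1]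
    simp only [Finset.sum_add_distrib, nsmul_eq_mul] at this r1 r2
    linarith
  have TN : (0 : ℝ) < T / 3 * (Ω n).card := by positivity
  have fb := fun x' b d (hx : Val v' x') (h : ∀ k, Fol σ ι v' κ C x' b U d k) k =>
    And.intro (h k) ((h k).bd X.hv' X.hl' hx U1)
  have side : ∀ V : ℂ, V = U ∨ V = -U → -δ ≤ cr V (u.re *
      ((∑ ω ∈ Ω n, Lam σ v v' 1 ω) / (Ω n).card) +
      u.im * ((∑ ω ∈ Ω n, Lam σ v v' Complex.I ω) / (Ω n).card)) := fun V hV => by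
    have := main V (-(2 * l)) (by rcases hV with rfl | rfl <;> simpa using U1)
      fun x' b d hx h => by
        obtain ⟨⟨a1, a2, -⟩, a3, a4, -⟩ := fb x' b d hx h T
        obtain ⟨⟨b1, b2, -⟩, b3, b4, -⟩ := fb x' b d hx h 0
        simp only [dev] at b1 b2 b3 b4
        rcases hV with rfl | rfl <;> simp only [mid, cr_add, cr_neg] <;> linarith
    rw [div_le_iff₀ hδ] at T1
    refine le_of_mul_le_mul_left ?_ TN
    nlinarith [mul_le_mul_of_nonneg_left T1 N0.le, mul_le_mul_of_nonneg_left w1 l0.le]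
  refine ⟨abs_le.2 ⟨side U (.inl rfl), by simpa [cr_neg] using side _ (.inr rfl)⟩, ?_⟩
  have := main (-(Complex.I * U)) (κ * T) (by simpa using U1) fun x' b d hx h => by
    obtain ⟨⟨-, -, a1⟩, -, -, a2⟩ := fb x' b d hx h T
    have a3 := abs_le.1 (hx.dt_le X.hl' U1)
    rw [div_le_iff₀ hκ] at T2
    simp only [mid, cr_add, cr_I]
    linarith
  rw [cr_I] at this
  refine le_of_mul_le_mul_left ?_ TN
  nlinarith [mul_le_mul_of_nonneg_left w2 (mul_pos hκ T3).le, mul_pos TN hδ]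

theorem limit [Finite E] (X : Ctx σ ι v v' κ C l) (e : E) : ∃ A : ℂ →ₗ[ℝ] ℂ,
    ∀ u U, GU σ ι v v' κ C e u U → cr U (A u) = 0 ∧ 0 < dt U (A u) := by
  obtain ⟨η, hη, H⟩ := approx X e
  let T : ℕ → Set (ℂ × ℂ) := fun j => {a | ‖a.1‖ ≤ 2 * l * l ∧ ‖a.2‖ ≤ 2 * l * l ∧
    ∀ u U, GU σ ι v v' κ C e u U → |cr U (u.re * a.1 + u.im * a.2)| ≤ 1 / (j + 1 : ℝ) ∧
      η - 1 / (j + 1 : ℝ) ≤ dt U (u.re * a.1 + u.im * a.2)}
  have cl : ∀ j, IsClosed (T j) := fun j => by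
    simp only [T, cr, dt, Set.ofPred_and, Set.ofPred_forall]
    refine IsClosed.inter ?_ (IsClosed.inter ?_ (isClosed_iInter fun u => isClosed_iInter
      fun U => isClosed_iInter fun _ => IsClosed.inter ?_ ?_)) <;>
      exact isClosed_le (by fun_prop) (by fun_prop)
  obtain ⟨a, ha⟩ := IsCompact.nonempty_iInter_of_sequence_nonempty_isCompact_isClosed T
    (fun j a ha => ⟨ha.1, ha.2.1, fun u U h => by
      have := Nat.one_div_le_one_div (α := ℝ) j.le_succ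
      exact ⟨(ha.2.2 u U h).1.trans this, le_trans (by linarith) (ha.2.2 u U h).2⟩⟩)
    (fun j => H _ Nat.one_div_pos_of_nat)
    (((isCompact_closedBall (0 : ℂ) (2 * l * l)).prod
      (isCompact_closedBall (0 : ℂ) (2 * l * l))).of_isClosed_subset (cl 0) fun a ha =>
        ⟨by simpa using ha.1, by simpa using ha.2.1⟩) cl
  rw [Set.mem_iInter] at ha
  refine ⟨Complex.reLm.smulRight a.1 + Complex.imLm.smulRight a.2, fun u U h => ?_⟩
  have t := tendsto_one_div_add_atTop_nhds_zero_nat (𝕜 := ℝ)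
  have h1 := ge_of_tendsto' t fun j => ((ha j).2.2 u U h).1
  have h2 := le_of_tendsto' (t.const_sub η) fun j => ((ha j).2.2 u U h).2
  exact ⟨abs_nonpos_iff.1 h1, hη.trans_le ((sub_zero η).symm.trans_le h2)⟩

end Pool.Agent.Lib.MP_42043b_gt
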