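import Pool.Agent.Lib.MP_42043b_gt.Prog

/-! Words of lines with a rule for ties, and the lines that follow them in the second metric. -/

namespace Pool.Agent.Lib.MP_42043b_gt

open Filter Topology

variable {E : Type} {σ ι : E → E} {v : E → ℂ}

open Classical in
/-- On which side of the line the third vertex is counted. -/
noncomputable def nb (σ : E → E) (v : E → ℂ) (u : ℂ) (c : ℝ) (a : Bool) (x : E × ℂ × ℂ) : Bool :=
  decide (c < cr u (third σ v x) ∨ c = cr u (third σ v x) ∧ a = true)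

/-- The sides met by the line. -/
noncomputable def orb (σ ι : E → E) (v : E → ℂ) (u : ℂ) (c : ℝ) (a : Bool) (x : E × ℂ × ℂ) :
    ℕ → E × ℂ × ℂ
  | 0 => x
  | k + 1 => step σ ι v (nb σ v u c a (orb σ ι v u c a x k)) (orb σ ι v u c a x k)

/-- The word of the line. -/
noncomputable def wd (σ ι : E → E) (v : E → ℂ) (u : ℂ) (c : ℝ) (a : Bool) (x : E × ℂ × ℂ)
    (k : ℕ) : Bool := nb σ v u c a (orb σ ι v u c a x k)

theorem dev_wd (u : ℂ) (c : ℝ) (a : Bool) (x : E × ℂ × ℂ) (k : ℕ) :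
    dev σ ι v x (wd σ ι v u c a x) k = orb σ ι v u c a x k := by
  induction k with
  | zero => rfl
  | succ k ih => rw [dev, ih]; rfl

theorem wd_succ (u : ℂ) (c : ℝ) (a : Bool) (x : E × ℂ × ℂ) (k : ℕ) :
    wd σ ι v u c a x (k + 1) = wd σ ι v u c a (step σ ι v (nb σ v u c a x) x) k := by
  have : ∀ k, orb σ ι v u c a x (k + 1) = orb σ ι v u c a (step σ ι v (nb σ v u c a x) x) k :=
    fun k => by
      induction k with
      | zero => rfl
      | succ k ih => rw [orb, ih]; rfl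
  rw [wd, this]; rfl

theorem wd_aff (u β : ℂ) (c : ℝ) (a : Bool) (x : E × ℂ × ℂ) :
    wd σ ι v u (c + cr u β) a (aff 1 β x) = wd σ ι v u c a x := by
  have h1 : ∀ y, nb σ v u (c + cr u β) a (aff 1 β y) = nb σ v u c a y := fun y => by
    simp [nb, third_aff, cr_add]
  have h2 : ∀ k, orb σ ι v u (c + cr u β) a (aff 1 β x) k = aff 1 β (orb σ ι v u c a x k) :=
    fun k => by
      induction k with
      | zero => rfl
      | succ k ih => rw [orb, ih, h1, step_aff]; rfl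
  exact funext fun k => by rw [wd, h2, h1]; rfl

theorem pos_of_mul {a b : ℝ} (h : 0 < a * b) (ha : 0 ≤ a) : 0 < b :=
  lt_of_not_ge fun hb => h.not_ge (mul_nonpos_of_nonneg_of_nonpos ha hb)

theorem inv_real {A G l p q w : ℝ} (hG : 0 ≤ G) (hs : 0 < A + G) (hI : 0 ≤ A * q + G * p)
    (hI' : A * G = 0 → 0 < A * q + G * p) (hl : 0 ≤ l) (hl' : G = 0 → 0 < l)
    (hD : 0 < (w - q) * (A + G) - (p - q) * (l + G)) :
    0 ≤ l * q + G * w ∧ (l * G = 0 → 0 < l * q + G * w) := by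
  have e : (A + G) * (l * q + G * w) =
      (l + G) * (A * q + G * p) + ((w - q) * (A + G) - (p - q) * (l + G)) * G := by ring
  have h1 := mul_nonneg (add_nonneg hl hG) hI
  refine ⟨nonneg_of_mul_nonneg_right (e ▸ add_nonneg h1 (mul_nonneg hD.le hG)) hs, fun _ =>
    pos_of_mul (e ▸ ?_) hs.le⟩
  rcases hG.eq_or_lt with h | h
  · exact add_pos_of_pos_of_nonneg (mul_pos (by linarith [hl' h.symm]) (hI' (by simp [← h])))
      (mul_nonneg hD.le hG)
  · exact add_pos_of_nonneg_of_pos h1 (mul_pos hD h)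

/-- Weak crossing, ahead of the abscissa `h`. -/
def Inv (u : ℂ) (c : ℝ) (a : Bool) (h : ℝ) (y : E × ℂ × ℂ) : Prop :=
  0 ≤ cr u y.2.1 - c ∧ 0 ≤ c - cr u y.2.2 ∧ (a = true → 0 < c - cr u y.2.2) ∧
    (a = false → 0 < cr u y.2.1 - c) ∧
    0 ≤ (cr u y.2.1 - c) * (dt u y.2.2 - h) + (c - cr u y.2.2) * (dt u y.2.1 - h) ∧
    ((cr u y.2.1 - c) * (c - cr u y.2.2) = 0 →
      0 < (cr u y.2.1 - c) * (dt u y.2.2 - h) + (c - cr u y.2.2) * (dt u y.2.1 - h))

theorem Inv.step (hv : Flat σ ι v) {u : ℂ} (hu : ‖u‖ = 1) {c h : ℝ} {a : Bool} {y : E × ℂ × ℂ}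
    (hy : Val v y) (H : Inv u c a h y) : Inv u c a h (step σ ι v (nb σ v u c a y) y) := by
  obtain ⟨h1, h2, h3, h4, h5, h6⟩ := H
  have a1 := (hv.pos y.1).trans_eq ((hy.area hv).symm.trans (cr_unit hu _ _))
  simp only [cr_sub, dt_sub] at a1
  have hs : 0 < cr u y.2.1 - c + (c - cr u y.2.2) := by
    cases a
    exacts [by linarith [h4 rfl], by linarith [h3 rfl]]
  by_cases hb : c < cr u (third σ v y) ∨ c = cr u (third σ v y) ∧ a = true
  · have h7 : a = false → 0 < cr u (third σ v y) - c := fun ha => by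
      rcases hb with hb | hb
      exacts [by linarith, by simp [ha] at hb]
    have h8 : 0 ≤ cr u (third σ v y) - c := by rcases hb with hb | hb <;> linarith [hb]
    rw [nb, decide_eq_true hb]
    have h9 := inv_real (w := dt u (third σ v y) - h) h2 hs h5 h6 h8
      (fun h0 => h7 (by cases a; exacts [rfl, absurd h0 (h3 rfl).ne'])) (by linarith)
    exact ⟨h8, h2, h3, h7, h9⟩
  · rw [nb, decide_eq_false hb]
    rw [not_or, not_lt, not_and] at hb
    have h7 : a = true → 0 < c - cr u (third σ v y) := fun ha =>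
      sub_pos.2 (lt_of_le_of_ne hb.1 fun h0 => hb.2 h0.symm ha)
    have h8 : 0 ≤ c - cr u (third σ v y) := by linarith [hb.1]
    obtain ⟨h9, h10⟩ := inv_real (w := dt u (third σ v y) - h) (A := c - cr u y.2.2)
      (p := dt u y.2.2 - h) (q := dt u y.2.1 - h) h1 (by linarith) (by linarith)
      (fun h0 => by linarith [h6 (by linarith)]) h8
      (fun h0 => h7 (by cases a; exacts [absurd h0 (h4 rfl).ne', rfl])) (by linarith)
    exact ⟨h1, h8, h7, h4, by simpa [MP_42043b_gt.step, add_comm] using h9,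
      fun h0 => by simpa [MP_42043b_gt.step, add_comm] using h10 (by simpa [MP_42043b_gt.step, or_comm] using h0)⟩

theorem ev_pos {A B : ℝ} (h : 0 < A ∨ A = 0 ∧ 0 < B) : ∀ᶠ ε in 𝓝[>] (0 : ℝ), 0 < A + ε * B := by
  rcases h with h | ⟨rfl, h⟩
  · have : Tendsto (fun ε : ℝ => A + ε * B) (𝓝 0) (𝓝 (A + 0 * B)) :=
      (Continuous.tendsto (by fun_prop) 0)
    exact (this.eventually (lt_mem_nhds (by simpa using h))).filter_mono nhdsWithin_le_nhds
  · filter_upwards [self_mem_nhdsWithin] with ε hε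
    simpa using mul_pos hε h

theorem Inv.ev {u : ℂ} {c h s t : ℝ} {a : Bool} {y : E × ℂ × ℂ} (H : Inv u c a h y)
    (h1 : a = true → ∀ z, 0 < z → 0 < s * z + t) (h2 : a = false → ∀ z, 0 < z → s * z + t < 0) :
    ∀ᶠ ε : ℝ in 𝓝[>] 0, Sep (u + (ε * s : ℝ) * -(Complex.I * u)) (c + ε * (s * h - t)) y := by
  obtain ⟨k1, k2, k3, k4, -, k6⟩ := H
  have e : ∀ (r : ℝ) z, cr (u + r * -(Complex.I * u)) z = cr u z + r * dt u z := fun r z => by
    simp [cr, dt]; ring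
  have e1 : 0 < cr u y.2.1 - c ∨ cr u y.2.1 - c = 0 ∧ 0 < s * (dt u y.2.1 - h) + t := by
    refine k1.lt_or_eq.imp_right fun h0 => ⟨h0.symm, ?_⟩
    have ha : a = true := by cases a; exacts [absurd h0 (k4 rfl).ne, rfl]
    have := k6 (by simp [← h0])
    rw [← h0, zero_mul, zero_add] at this
    exact h1 ha _ (pos_of_mul this k2)
  have e2 : 0 < c - cr u y.2.2 ∨ c - cr u y.2.2 = 0 ∧ 0 < -(s * (dt u y.2.2 - h) + t) := by
    refine k2.lt_or_eq.imp_right fun h0 => ⟨h0.symm, ?_⟩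
    have ha : a = false := by cases a; exacts [rfl, absurd h0 (k3 rfl).ne]
    have := k6 (by simp [← h0])
    rw [← h0, zero_mul, add_zero] at this
    exact neg_pos.2 (h2 ha _ (pos_of_mul this k1))
  filter_upwards [ev_pos e1, ev_pos e2] with ε a1 a2
  simp only [Sep, e]
  constructor <;> linarith

theorem win_exists (hv : Flat σ ι v) {u : ℂ} (hu : ‖u‖ = 1) {c : ℝ} {x : E × ℂ × ℂ} (hx : Val v x)
    (hs : Sep u c x) (a b : Bool) (n : ℕ) :
    ∃ u' c', Win Sep σ ι v x (wd σ ι v u c a x) (wd σ ι v (-u) (-c) b (rev ι x)) n u' c' := by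
  obtain ⟨s1, s2⟩ := hs
  obtain ⟨h, hh⟩ : ∃ h, (cr u x.2.1 - c) * (dt u x.2.2 - h) +
      (c - cr u x.2.2) * (dt u x.2.1 - h) = 0 :=
    ⟨((cr u x.2.1 - c) * dt u x.2.2 + (c - cr u x.2.2) * dt u x.2.1) / (cr u x.2.1 - cr u x.2.2),
      by have : cr u x.2.1 - cr u x.2.2 ≠ 0 := by linarith
         field_simp; ring⟩
  have all : ∀ (u : ℂ) (c h : ℝ) (a : Bool) (x : E × ℂ × ℂ), ‖u‖ = 1 → Val v x → Inv u c a h x →
      ∀ k, Inv u c a h (dev σ ι v x (wd σ ι v u c a x) k) := fun u c h a x hu hx H k => by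
    induction k with
    | zero => exact H
    | succ k ih =>
      have := ih.step hv hu (hx.dev hv _ k)
      rwa [dev, wd, ← dev_wd]
  have n0 := mul_pos (sub_pos.2 s2) (sub_pos.2 s1)
  have f := all u c h a x hu hx ⟨by linarith, by linarith, fun _ => by linarith,
    fun _ => by linarith, hh.ge, fun h0 => absurd h0 n0.ne'⟩
  have g := all (-u) (-c) (-h) b (rev ι x) (by simpa using hu) (hx.rev hv) (by
    simp only [Inv, rev, cr_neg, dt_neg]
    exact ⟨by linarith, by linarith, fun _ => by linarith, fun _ => by linarith, by linarith,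
      fun h0 => absurd (by linarith) n0.ne'⟩)
  obtain ⟨s, t, h1, h2, h3, h4⟩ : ∃ s t : ℝ, (a = true → ∀ z, 0 < z → 0 < s * z + t) ∧
      (a = false → ∀ z, 0 < z → s * z + t < 0) ∧ (b = true → ∀ z, 0 < z → 0 < s * z + -t) ∧
      (b = false → ∀ z, 0 < z → s * z + -t < 0) := by
    cases a <;> cases b
    exacts [⟨-1, 0, by simp⟩, ⟨0, -1, by simp⟩, ⟨0, 1, by simp⟩, ⟨1, 0, by simp⟩]
  obtain ⟨ε, hε⟩ := ((eventually_all_finite (Set.finite_Iic n)).2 fun k _ =>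
    ((f k).ev h1 h2).and ((g k).ev h3 h4)).exists
  refine ⟨_, _, fun k hk => ⟨(hε k hk).1, ?_⟩⟩
  convert (hε k hk).2 using 1 <;> ring

/-- Linear progress along chains, with given constants. -/
def Prg (σ ι : E → E) (v : E → ℂ) (κ C : ℝ) : Prop :=
  ∀ (x : E × ℂ × ℂ) (b : ℕ → Bool) (n : ℕ) (u : ℂ) (c : ℝ), Val v x → ‖u‖ = 1 →
    (∀ k ≤ n, SepW u c (dev σ ι v x b k)) → κ * n - C ≤ dt u (dev σ ι v x b n).2.1 - dt u x.2.1

/-- The line follows the side number `k` of the chain. -/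
def Fol (σ ι : E → E) (v : E → ℂ) (κ C : ℝ) (x : E × ℂ × ℂ) (b : ℕ → Bool) (U : ℂ) (c : ℝ)
    (k : ℕ) : Prop :=
  cr U (dev σ ι v x b k).2.2 ≤ c ∧ c ≤ cr U (dev σ ι v x b k).2.1 ∧
    κ * k - C ≤ dt U (dev σ ι v x b k).2.1 - dt U x.2.1

theorem line_exists (hv : Flat σ ι v) {κ C : ℝ} (hP : Prg σ ι v κ C) {x : E × ℂ × ℂ}
    (hx : Val v x) {f g : ℕ → Bool} (H : ∀ n, ∃ u c, Win SepW σ ι v x f g n u c) :
    ∃ Z : ℂ × ℝ, ‖Z.1‖ = 1 ∧ ∀ k, Fol σ ι v κ C x f Z.1 Z.2 k ∧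
      Fol σ ι v κ C (rev ι x) g (-Z.1) (-Z.2) k := by
  let T : ℕ → Set (ℂ × ℝ) := fun n => {Z | ‖Z.1‖ = 1 ∧ ∀ k ≤ n, Fol σ ι v κ C x f Z.1 Z.2 k ∧
      Fol σ ι v κ C (rev ι x) g (-Z.1) (-Z.2) k}
  have cl : ∀ n, IsClosed (T n) := fun n => by
    simp only [T, Fol, cr, dt, Set.ofPred_and, Set.ofPred_forall]
    refine (isClosed_eq (by fun_prop) (by fun_prop)).inter (isClosed_iInter fun k =>
      isClosed_iInter fun _ => IsClosed.inter (IsClosed.inter ?_ (IsClosed.inter ?_ ?_))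
        (IsClosed.inter ?_ (IsClosed.inter ?_ ?_))) <;> exact isClosed_le (by fun_prop) (by fun_prop)
  obtain ⟨Z, hZ⟩ := IsCompact.nonempty_iInter_of_sequence_nonempty_isCompact_isClosed T
    (fun n Z hZ => ⟨hZ.1, fun k hk => hZ.2 k (by omega)⟩) (fun n => by
      obtain ⟨u, c, hw⟩ := H n
      have u0 : 0 < ‖u‖ := norm_pos_iff.2 (hw 0 n.zero_le).1.1
      have sc : ∀ (u : ℂ) c (y : E × ℂ × ℂ), 0 < ‖u‖ → SepW u c y →
          SepW (u / ‖u‖) (c / ‖u‖) y := fun u c y u0 ⟨s0, s1, s2⟩ => by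
        have : ∀ z, cr (u / ‖u‖) z = cr u z / ‖u‖ := fun z => by simp [cr]; ring
        simp only [SepW, this]
        exact ⟨div_ne_zero s0 (by exact_mod_cast u0.ne'), div_le_div_of_nonneg_right s1 u0.le,
          div_le_div_of_nonneg_right s2 u0.le⟩
      have n1 : ‖u / ‖u‖‖ = 1 := by simp [u0.ne']
      have s1 := fun k hk => sc _ _ _ u0 (hw k hk).1
      have s2 := fun k hk => sc _ _ _ (by simpa using u0) (hw k hk).2
      simp only [norm_neg, neg_div] at s2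
      exact ⟨(u / ‖u‖, c / ‖u‖), n1, fun k hk => ⟨⟨(s1 k hk).2.1, (s1 k hk).2.2,
        hP _ _ _ _ _ hx n1 fun i hi => s1 i (hi.trans hk)⟩, (s2 k hk).2.1, (s2 k hk).2.2,
        hP _ _ _ _ _ (hx.rev hv) (by simpa using n1) fun i hi => s2 i (hi.trans hk)⟩⟩)
    (((isCompact_sphere (0 : ℂ) 1).prod (isCompact_Icc (a := -‖x.2.2‖) (b := ‖x.2.1‖))).of_isClosed_subset
      (cl 0) fun Z hZ => by
        obtain ⟨h1, h2, -⟩ := (hZ.2 0 le_rfl).1
        have h3 := abs_le.1 (cr_le Z.1 x.2.1)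
        have h4 := abs_le.1 (cr_le Z.1 x.2.2)
        rw [hZ.1, one_mul] at h3 h4
        exact ⟨by simpa using hZ.1, h4.1.trans h1, h2.trans h3.2⟩) cl
  rw [Set.mem_iInter] at hZ
  exact ⟨Z, (hZ 0).1, fun k => (hZ k).2 k le_rfl⟩

end Pool.Agent.Lib.MP_42043b_gt
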