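import Pool.Agent.Lib.MP_42043b_gt.Lim

/-! One linear map carries all developments of the first metric to those of the second. -/

namespace Pool.Agent.Lib.MP_42043b_gt

variable {E : Type} {σ ι : E → E} {v v' : E → ℂ} {κ C l : ℝ}

theorem half [Finite E] (X : Ctx σ ι v v' κ C l) (e : E) : ∃ A : ℂ →ₗ[ℝ] ℂ, ∀ u : ℂ,
    (∀ n ω, Reach σ ι v v' e n ω → cr u (ω.2.1 * v ω.1) ≠ 0) → A u ≠ 0 ∧
      ∀ n ω, Reach σ ι v v' e n ω → cr u (ω.2.1 * v ω.1) < 0 → cr (A u) (ω.2.2 * v' ω.1) ≤ 0 := by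
  obtain ⟨A, hA⟩ := limit X e
  refine ⟨A, fun u g => ?_⟩
  have u0 : 0 < ‖u‖ := norm_pos_iff.2 fun h => g 0 _ .base (by simp [h, cr])
  have c : ∀ (r : ℝ) a z, cr (r • a) z = r * cr a z := fun r a z => by simp [cr]; ring
  have n1 : ‖‖u‖⁻¹ • u‖ = 1 := by simp [u0.ne']
  obtain ⟨U, hU⟩ := all_ed X n1 e fun n ω h => by
    rw [c]; exact mul_ne_zero (inv_pos.2 u0).ne' (g n ω h)
  obtain ⟨h1, h2⟩ := hA _ U ⟨n1, hU⟩
  refine ⟨fun h => by rw [map_smul, h] at h2; simp [dt] at h2, fun n ω h hc => ?_⟩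
  have z : ∀ a, cr a 0 = 0 := fun a => by simp [cr]
  obtain ⟨t, t1, t2⟩ := exists_between (mul_neg_of_pos_of_neg (inv_pos.2 u0) hc)
  obtain ⟨d, hd⟩ := (hU n ω h 0 0).2.1 t ⟨by simpa only [plc, zero_add, c] using t1,
    by simpa only [plc, z] using t2⟩
  obtain ⟨d1, d2, -⟩ := hd 0
  simp only [dev, plc, zero_add, z] at d1 d2
  have := cr_unit (hU n ω h 0 0).1 (A (‖u‖⁻¹ • u)) (ω.2.2 * v' ω.1)
  rw [h1, zero_mul, sub_zero, map_smul, c, ← map_smul] at this
  exact nonpos_of_mul_nonpos_right (this ▸ mul_nonpos_of_nonneg_of_nonpos h2.le (d1.trans d2))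
    (inv_pos.2 u0)

theorem good [Finite E] (X : Ctx σ ι v v' κ C l) (e : E) {d : ℂ} (hd : d ≠ 0) {s δ : ℝ}
    (hs : s ≠ 0) (hδ : 0 < δ) : ∃ t : ℝ, 0 < t ∧ t < δ ∧ ∀ n ω, Reach σ ι v v' e n ω →
      cr (s • d + t • (Complex.I * d)) (ω.2.1 * v ω.1) ≠ 0 := by
  have := Fintype.ofFinite E
  obtain ⟨Ω, hΩ, -⟩ := balls (σ := σ) (ι := ι) (v := v) (v' := v') e
  have c : (⋃ n, ⋃ ω ∈ (Ω n : Set (E × ℂ × ℂ)),
      {t : ℝ | cr (s • d + t • (Complex.I * d)) (ω.2.1 * v ω.1) = 0}).Countable :=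
    Set.countable_iUnion fun n => (Ω n).countable_toSet.biUnion fun ω hω =>
      Set.Subsingleton.countable fun t ht t' ht' => by
        have e1 : ∀ (t : ℝ) z, cr (s • d + t • (Complex.I * d)) z = s * cr d z - t * dt d z :=
          fun t z => by simp [cr, dt]; ring
        simp only [Set.mem_ofPred_eq, e1] at ht ht'
        by_contra ne
        have h1 : dt d (ω.2.1 * v ω.1) = 0 :=
          (mul_eq_zero.1 (by linear_combination ht' - ht)).resolve_left (sub_ne_zero.2 ne)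
        have h2 : cr d (ω.2.1 * v ω.1) = 0 :=
          (mul_eq_zero.1 (by linear_combination ht + t * h1)).resolve_left hs
        have h3 := lagr d (ω.2.1 * v ω.1)
        rw [h1, h2, norm_mul, (((hΩ n ω).1 hω).unit X).1] at h3
        simp [hd, X.hv.ne] at h3
  obtain ⟨t, h1, h2⟩ := (c.dense_compl ℝ).exists_between hδ
  exact ⟨t, h2.1, h2.2, fun n ω h h0 =>
    h1 (Set.mem_iUnion.2 ⟨n, Set.mem_biUnion ((hΩ n ω).2 h) h0⟩)⟩

theorem edges [Finite E] (X : Ctx σ ι v v' κ C l) (e : E) : ∃ A : ℂ →ₗ[ℝ] ℂ,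
    ∀ n ω, Reach σ ι v v' e n ω → A (ω.2.1 * v ω.1) = ω.2.2 * v' ω.1 := by
  obtain ⟨A, hA⟩ := half X e
  have par : ∀ n ω, Reach σ ι v v' e n ω → ∃ r : ℝ, A (ω.2.1 * v ω.1) = r • (ω.2.2 * v' ω.1) :=
    fun n ω h => by
      obtain ⟨r1, r2⟩ := h.unit X
      have d0 : ω.2.1 * v ω.1 ≠ 0 := mul_ne_zero (norm_ne_zero_iff.1 (by simp [r1])) (X.hv.ne _)
      have d1 : ω.2.2 * v' ω.1 ≠ 0 := mul_ne_zero (norm_ne_zero_iff.1 (by simp [r2])) (X.hv'.ne _)
      have one : ∀ s : ℝ, s ≠ 0 → s * cr (A (ω.2.1 * v ω.1)) (ω.2.2 * v' ω.1) ≤ 0 := fun s hs =>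
        le_of_forall_pos_le_add fun ε hε => by
          obtain ⟨t, t1, t2, t3⟩ := good X e d0 hs (δ := ε /
            (|cr (A (Complex.I * (ω.2.1 * v ω.1))) (ω.2.2 * v' ω.1)| + 1)) (by positivity)
          have := (hA _ t3).2 n ω h (by
            have := Complex.normSq_pos.2 d0
            generalize ω.2.1 * v ω.1 = d at *
            rw [Complex.normSq_apply] at this
            simp [cr]
            nlinarith [mul_pos t1 this])
          rw [map_add, map_smul, map_smul] at this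
          rw [lt_div_iff₀ (by positivity)] at t2
          have e1 : ∀ a b z, cr (s • a + t • b) z = s * cr a z + t * cr b z := fun a b z => by
            simp [cr]; ring
          rw [e1] at this
          nlinarith [neg_abs_le (cr (A (Complex.I * (ω.2.1 * v ω.1))) (ω.2.2 * v' ω.1))]
      have h0 : cr (A (ω.2.1 * v ω.1)) (ω.2.2 * v' ω.1) = 0 := by
        linarith [one 1 one_ne_zero, one (-1) (by simp)]
      generalize A (ω.2.1 * v ω.1) = a at *
      generalize ω.2.2 * v' ω.1 = d at *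
      have n0 := (Complex.normSq_pos.2 d1).ne'
      refine ⟨dt a d / Complex.normSq d, ?_⟩
      rw [div_eq_inv_mul, mul_smul, eq_inv_smul_iff₀ n0]
      simp only [cr] at h0
      apply Complex.ext <;> simp [dt, Complex.normSq_apply]
      · linear_combination d.im * h0
      · linear_combination -d.re * h0
  obtain ⟨r, hr⟩ := par 0 _ .base
  have all : ∀ n ω, Reach σ ι v v' e n ω → A (ω.2.1 * v ω.1) = r • (ω.2.2 * v' ω.1) :=
    fun n ω h => by
      induction h with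
      | base => exact hr
      | @turn n ω h ih =>
        obtain ⟨s, hs⟩ := par _ _ h.turn
        obtain ⟨t, ht⟩ := par _ _ h.turn.turn
        have e1 : ∀ {v : E → ℂ}, Flat σ ι v → ∀ ρ : ℂ,
            ρ * v (σ (σ ω.1)) = -(ρ * v ω.1) - ρ * v (σ ω.1) := fun hv ρ => by
          linear_combination ρ * hv.sum ω.1
        have e2 := cr_mul ω.2.2 (v' ω.1) (v' (σ ω.1))
        have e3 := X.hv'.pos ω.1
        rw [(h.unit X).2, one_pow, one_mul] at e2
        simp only at hs ht ⊢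
        rw [e1 X.hv, e1 X.hv', map_sub, map_neg, ih, hs] at ht
        rw [← e2] at e3
        rw [hs]
        generalize ω.2.2 * v' ω.1 = a at *
        generalize ω.2.2 * v' (σ ω.1) = b at *
        have e4 := congrArg (cr a) ht
        have e5 := congrArg (cr b) ht
        simp [cr] at e3 e4 e5
        have : s = r := by
          refine mul_right_cancel₀ (sub_pos.2 e3).ne' ?_
          linear_combination -e4 - e5
        rw [this]
      | @rev n ω h ih =>
        have e1 : ∀ {v : E → ℂ}, Flat σ ι v → ∀ ρ : ℂ,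
            ρ * (-v ω.1 / v (ι ω.1)) * v (ι ω.1) = -(ρ * v ω.1) := fun hv ρ => by
          rw [mul_assoc, div_mul_cancel₀ _ (hv.ne _), mul_neg]
        simp only [revC]
        rw [e1 X.hv, e1 X.hv', map_neg, ih, smul_neg]
      | mono _ ih => exact ih
  have r0 : r ≠ 0 := fun h0 => by
    obtain ⟨t, -, -, t3⟩ := good X e one_ne_zero one_ne_zero one_pos
    have a1 := all _ _ .base
    have a2 := all _ _ Reach.base.turn
    simp only [h0, zero_smul, one_mul] at a1 a2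
    refine (hA _ t3).1 ((smul_eq_zero.1 ?_).resolve_left (X.hv.pos e).ne')
    generalize (1 : ℝ) • (1 : ℂ) + t • (Complex.I * 1) = u
    have : cr (v e) (v (σ e)) • u = cr u (v (σ e)) • v e - cr u (v e) • v (σ e) := by
      apply Complex.ext <;> simp [cr] <;> ring
    rw [← map_smul, this, map_sub, map_smul, map_smul, a1, a2]
    simp
  exact ⟨r⁻¹ • A, fun n ω h => by rw [LinearMap.smul_apply, all n ω h, inv_smul_smul₀ r0]⟩

theorem affine [Finite E] (hσ : ∀ e, σ (σ (σ e)) = e) (hι : ∀ e, ι (ι e) = e) (hv : Flat σ ι v)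
    (hv' : Flat σ ι v') (H : ∀ e b n, Cuts σ ι v e b n → Meets σ ι v' e b n) (e : E) :
    ∃ A : ℂ →ₗ[ℝ] ℂ, ∀ b k,
      A (dev σ ι v (e, 0, v e) b k).2.1 = (dev σ ι v' (e, 0, v' e) b k).2.1 ∧
      A (dev σ ι v (e, 0, v e) b k).2.2 = (dev σ ι v' (e, 0, v' e) b k).2.2 := by
  obtain ⟨-, l, -, -, -, h1⟩ := hv.consts
  obtain ⟨-, l', -, -, -, h2⟩ := hv'.consts
  obtain ⟨κ, C, h3, -, h4⟩ := progress hv'
  have X : Ctx σ ι v v' κ C (max l l') := ⟨hσ, hι, hv, hv', H, fun e => le_max_of_le_left (h1 e),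
    fun e => le_max_of_le_right (h2 e), h3, h4⟩
  obtain ⟨A, hA⟩ := edges X e
  refine ⟨A, fun b k => ?_⟩
  suffices ∃ n ω β β', Reach σ ι v v' e n ω ∧ dev σ ι v (e, 0, v e) b k = plc v ω.1 ω.2.1 β ∧
      dev σ ι v' (e, 0, v' e) b k = plc v' ω.1 ω.2.2 β' ∧ A β = β' by
    obtain ⟨n, ω, β, β', h, e1, e2, e3⟩ := this
    rw [e1, e2]
    exact ⟨e3, by simp only [plc, map_add, e3, hA n ω h]⟩
  induction k with
  | zero => exact ⟨0, _, 0, 0, .base, by simp [dev, plc], by simp [dev, plc], map_zero A⟩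
  | succ k ih =>
    obtain ⟨n, ω, β, β', h, e1, e2, e3⟩ := ih
    rw [dev, dev, e1, e2]
    cases b k
    · refine ⟨_, _, _, _, h.turn.turn.rev,
        by rw [step_false hv, turn_plc hv, turn_plc hv, rev_plc hv]; rfl,
        by rw [step_false hv', turn_plc hv', turn_plc hv', rev_plc hv']; rfl, ?_⟩
      rw [map_add, map_add, map_add, e3, hA _ _ h, hA _ _ h.turn, hA _ _ h.turn.turn]
    · refine ⟨_, _, _, _, h.turn.rev, by rw [step_true, turn_plc hv, rev_plc hv]; rfl,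
        by rw [step_true, turn_plc hv', rev_plc hv']; rfl, ?_⟩
      rw [map_add, map_add, e3, hA _ _ h, hA _ _ h.turn]

end Pool.Agent.Lib.MP_42043b_gt
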