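import Pool.Agent.Lib.MP_42043b_gt.Line

/-! Parallel lines of the first metric are followed by parallel lines of the second. -/

namespace Pool.Agent.Lib.MP_42043b_gt

open Filter Topology

variable {E : Type} {σ ι : E → E} {v v' : E → ℂ}

theorem norm_sub_le_cr {U W : ℂ} (h1 : ‖U‖ = 1) (h2 : ‖W‖ = 1) (h : 0 ≤ dt U W) :
    1 - dt U W ≤ |cr U W| ∧ dt U W ≤ 1 ∧ ‖U - W‖ ≤ 2 * |cr U W| := by
  have e := lagr U W
  rw [h1, h2] at e
  have a1 := abs_le.1 (dt_le U W)
  have a2 := cr_le U W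
  rw [h1, h2, mul_one] at a1 a2
  have a3 := sq_abs (cr U W)
  have a4 := abs_nonneg (cr U W)
  have e2 : ‖U - W‖ ^ 2 = 2 - 2 * dt U W := by
    have := unit_sq h1
    have := unit_sq h2
    rw [Complex.sq_norm, Complex.normSq_apply]
    simp only [Complex.sub_re, Complex.sub_im, dt]
    linarith
  exact ⟨by nlinarith, a1.2, (abs_le_of_sq_le_sq' (by nlinarith) (by positivity)).2⟩

theorem dt_nonneg {U W z : ℂ} {B R : ℝ} (h2 : ‖W‖ = 1) (hR : B < R) (a1 : |cr U z| ≤ B)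
    (a2 : |cr W z| ≤ B) (b1 : R ≤ dt U z) (b2 : R ≤ dt W z) : 0 ≤ dt U W := by
  have e : dt U W * (cr W z ^ 2 + dt W z ^ 2) = dt U z * dt W z + cr U z * cr W z := by
    have := unit_sq h2
    simp only [cr, dt]
    linear_combination (U.re * W.re + U.im * W.im) * (z.re ^ 2 + z.im ^ 2) * this
  have hB := (abs_nonneg _).trans a1
  have h3 : |cr U z * cr W z| ≤ B * B := by rw [abs_mul]; gcongr
  have h4 : R * R ≤ dt U z * dt W z := mul_le_mul b1 b2 (by linarith) (by linarith)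
  have h5 : 0 < cr W z ^ 2 + dt W z ^ 2 := by nlinarith [sq_nonneg (cr W z)]
  exact nonneg_of_mul_nonneg_left (by nlinarith [(abs_le.1 h3).1]) h5

theorem uniq {U W : ℂ} (h1 : ‖U‖ = 1) (h2 : ‖W‖ = 1) {κ B : ℝ} (hκ : 0 < κ) (z : ℕ → ℂ)
    (h : ∀ k, |cr U (z k)| ≤ B ∧ |cr W (z k)| ≤ B ∧ κ * k - B ≤ dt U (z k) ∧
      κ * k - B ≤ dt W (z k)) : U = W := by
  have t : Tendsto (fun k : ℕ => κ * k - B) atTop atTop :=
    tendsto_atTop_add_const_right _ _ (tendsto_natCast_atTop_atTop.const_mul_atTop hκ)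
  obtain ⟨k, hk⟩ := (t.eventually_gt_atTop B).exists
  obtain ⟨-, g1, g2⟩ := norm_sub_le_cr h1 h2
    (dt_nonneg h2 hk (h k).1 (h k).2.1 (h k).2.2.1 (h k).2.2.2)
  by_contra hne
  have n0 : 0 < |cr U W| := by linarith [norm_pos_iff.2 (sub_ne_zero.2 hne)]
  obtain ⟨k, hk, hk'⟩ := ((t.eventually_gt_atTop (2 * B / |cr U W|)).and
    (t.eventually_ge_atTop 0)).exists
  obtain ⟨a1, a2, a3, -⟩ := h k
  have a4 : |dt U W * cr U (z k)| ≤ 1 * B := by
    rw [abs_mul]
    gcongr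
    simpa [h1, h2] using dt_le U W
  have a5 : |cr U W * dt U (z k)| ≤ 2 * B := by
    rw [show cr U W * dt U (z k) = dt U W * cr U (z k) - cr W (z k) by
      rw [cr_unit h1 W]; ring]
    exact (abs_sub _ _).trans (by linarith)
  rw [abs_mul, abs_of_nonneg (hk'.trans a3)] at a5
  rw [div_lt_iff₀ n0] at hk
  nlinarith

theorem key_ineq {U W y z : ℂ} {R B m : ℝ} (h1 : ‖U‖ = 1) (h2 : ‖W‖ = 1) (h : 0 ≤ dt U W)
    (hR : B ≤ R) (p1 : cr W y - cr U y ≤ m) (p2 : R ≤ dt U y) (p3 : |cr U y| ≤ B)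
    (q1 : cr W z - cr U z ≤ m) (q2 : dt U z ≤ -R) (q3 : |cr U z| ≤ B) :
    (R - B) / 2 * ‖U - W‖ ≤ m := by
  obtain ⟨g1, g2, g3⟩ := norm_sub_le_cr h1 h2 h
  have hB := (abs_nonneg _).trans p3
  rw [cr_unit h1 W] at p1 q1
  have a : ∀ t, |t| ≤ B → -(B * |cr U W|) ≤ (dt U W - 1) * t := fun t ht => by
    nlinarith [(abs_le.1 ht).2]
  have a1 := a _ p3
  have a2 := a _ q3
  have : (R - B) * |cr U W| ≤ m := by
    rcases le_total 0 (cr U W) with s | s
    · rw [abs_of_nonneg s] at *; nlinarith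
    · rw [abs_of_nonpos s] at *; nlinarith
  nlinarith

section
variable {κ C l : ℝ}

theorem Fol.bd (hv : Flat σ ι v) (hl : ∀ e, ‖v e‖ ≤ l) {x : E × ℂ × ℂ} (hx : Val v x)
    {b : ℕ → Bool} {U : ℂ} (hU : ‖U‖ = 1) {c : ℝ} {k : ℕ} (h : Fol σ ι v κ C x b U c k) :
    cr U (dev σ ι v x b k).2.1 ≤ c + l ∧ c - l ≤ cr U (dev σ ι v x b k).2.2 ∧
      κ * k - C - l ≤ dt U (dev σ ι v x b k).2.2 - dt U x.2.1 := by
  have h1 := abs_le.1 ((hx.dev hv b k).cr_le hl hU)
  have h2 := abs_le.1 ((hx.dev hv b k).dt_le hl hU)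
  obtain ⟨a1, a2, a3⟩ := h
  exact ⟨by linarith, by linarith, by linarith⟩

theorem fol_uniq (hv : Flat σ ι v) (hl : ∀ e, ‖v e‖ ≤ l) (hκ : 0 < κ) {x y : E × ℂ × ℂ}
    (hx : Val v x) (hy : Val v y) {f g : ℕ → Bool} {U W : ℂ} (hU : ‖U‖ = 1) (hW : ‖W‖ = 1)
    {c d : ℝ} (j : ℕ) (e : ∀ k, dev σ ι v x f (k + j) = dev σ ι v y g k)
    (h1 : ∀ k, Fol σ ι v κ C x f U c k) (h2 : ∀ k, Fol σ ι v κ C y g W d k) : U = W := by
  refine uniq hU hW (B := |c| + |d| + |l| + |C| + |dt U x.2.1| + |dt W y.2.1|) hκ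
    (fun k => (dev σ ι v y g k).2.1) fun k => ?_
  obtain ⟨a1, -, -⟩ := (h1 (k + j)).bd hv hl hx hU
  obtain ⟨-, a2, a3⟩ := h1 (k + j)
  obtain ⟨b1, -, -⟩ := (h2 k).bd hv hl hy hW
  obtain ⟨-, b2, b3⟩ := h2 k
  rw [e] at a1 a2 a3
  have := abs_le.1 (le_refl |c|)
  have := abs_le.1 (le_refl |d|)
  have := abs_le.1 (le_refl |l|)
  have := abs_le.1 (le_refl |C|)
  have := abs_le.1 (le_refl |dt U x.2.1|)
  have := abs_le.1 (le_refl |dt W y.2.1|)
  have := mul_nonneg hκ.le (j.cast_nonneg (α := ℝ))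
  push_cast at a3
  refine ⟨abs_le.2 ⟨?_, ?_⟩, abs_le.2 ⟨?_, ?_⟩, ?_, ?_⟩ <;> grind

theorem split (hv : Flat σ ι v') (hl : ∀ e, ‖v' e‖ ≤ l) (hκ : 0 < κ) {x x' : E × ℂ × ℂ}
    (hx : Val v' x') {u U W : ℂ} {c c' d d' : ℝ} {a a' : Bool}
    (ord : ∀ y, nb σ v u c' a' y = true → nb σ v u c a y = true)
    (ne : wd σ ι v u c a x ≠ wd σ ι v u c' a' x) {n : ℕ}
    (ag : ∀ i < n, wd σ ι v u c a x i = wd σ ι v u c' a' x i) (hU : ‖U‖ = 1) (hW : ‖W‖ = 1)
    (h1 : ∀ k, Fol σ ι v' κ C x' (wd σ ι v u c a x) U d k)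
    (h2 : ∀ k, Fol σ ι v' κ C x' (wd σ ι v u c' a' x) W d' k) :
    ∃ w, d ≤ cr U w ∧ cr U w ≤ d + l ∧ cr W w ≤ d' ∧ d' - l ≤ cr W w ∧
      κ * n - C ≤ dt U w - dt U x'.2.1 ∧ κ * n - C - l ≤ dt W w - dt W x'.2.1 := by
  classical
  have ex : ∃ i, wd σ ι v u c a x i ≠ wd σ ι v u c' a' x i := Function.ne_iff.1 ne
  have lt : ∀ i < Nat.find ex, wd σ ι v u c a x i = wd σ ι v u c' a' x i :=
    fun i hi => not_not.1 (Nat.find_min ex hi)
  have hk := Nat.find_spec ex
  have nk : n ≤ Nat.find ex := not_lt.1 fun h => hk (ag _ h)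
  generalize Nat.find ex = k at *
  have o : orb σ ι v u c a x k = orb σ ι v u c' a' x k := by
    rw [← dev_wd, ← dev_wd, dev_congr x lt]
  have e2 : wd σ ι v u c' a' x k = false := by
    by_contra h
    have h := Bool.eq_true_of_not_eq_false h
    have h' : wd σ ι v u c a x k = true := by rw [wd, o]; exact ord _ h
    exact hk (h'.trans h.symm)
  have e1 : wd σ ι v u c a x k = true := by simpa [e2] using hk
  obtain ⟨a1, -, -⟩ := (h1 (k + 1)).bd hv hl hx hU
  obtain ⟨-, a2, a3⟩ := h1 (k + 1)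
  obtain ⟨-, b1, b2⟩ := (h2 (k + 1)).bd hv hl hx hW
  obtain ⟨b3, -, -⟩ := h2 (k + 1)
  rw [dev, e1] at a1 a2 a3
  rw [dev, e2, ← dev_congr x' lt] at b1 b2 b3
  have : κ * n ≤ κ * (k + 1 : ℕ) := by gcongr; omega
  exact ⟨_, a2, a1, b3, b1, by linarith [a3], le_trans (by linarith) b2⟩

theorem agree {x : E × ℂ × ℂ} {u : ℂ} {c c' : ℝ} {a a' : Bool} {n : ℕ}
    (h : ∀ b, ∀ k < n, nb σ v u c a (dev σ ι v x b k) = nb σ v u c' a' (dev σ ι v x b k)) :
    ∀ i < n, wd σ ι v u c a x i = wd σ ι v u c' a' x i := fun i => by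
  induction i using Nat.strong_induction_on with
  | _ i ih =>
    intro hi
    rw [wd, wd, ← dev_wd, ← dev_wd, ← dev_congr x fun j hj => ih j hj (hj.trans hi)]
    exact h _ i hi

theorem fin_dev (x : E × ℂ × ℂ) (n : ℕ) :
    {y | ∃ b, ∃ k < n, y = dev σ ι v x b k}.Finite := by
  have h : ∀ k, (Set.range fun b => dev σ ι v x b k).Finite := fun k => by
    induction k with
    | zero => exact (Set.finite_singleton x).subset (by rintro _ ⟨b, rfl⟩; rfl)
    | succ k ih =>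
      refine (Set.Finite.image2 (step σ ι v) Set.finite_univ ih).subset ?_
      rintro _ ⟨b, rfl⟩
      exact ⟨b k, trivial, _, ⟨b, rfl⟩, rfl⟩
  refine ((Set.finite_lt_nat n).biUnion fun k _ => h k).subset ?_
  rintro _ ⟨b, k, hk, rfl⟩
  exact Set.mem_biUnion hk ⟨b, rfl⟩

/-- All lines of direction `u` through `x` are followed by lines of direction `U`. -/
def Dir (σ ι : E → E) (v v' : E → ℂ) (κ C : ℝ) (u U : ℂ) (x x' : E × ℂ × ℂ) : Prop :=
  ∀ c, Sep u c x → ∃ d, ∀ k, Fol σ ι v' κ C x' (wd σ ι v u c true x) U d k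

theorem dir_exists (hσ : ∀ e, σ (σ (σ e)) = e) (hι : ∀ e, ι (ι e) = e) (hv : Flat σ ι v)
    (hv' : Flat σ ι v') (H : ∀ e b n, Cuts σ ι v e b n → Meets σ ι v' e b n)
    (hl : ∀ e, ‖v' e‖ ≤ l) (hκ : 0 < κ) (hP : Prg σ ι v' κ C) {u : ℂ} (hu : ‖u‖ = 1)
    {x x' : E × ℂ × ℂ} (hx : Val v x) (hx' : Val v' x') (e : x.1 = x'.1) :
    ∃ U, ‖U‖ = 1 ∧ Dir σ ι v v' κ C u U x x' := by
  classical
  let Q : (ℕ → Bool) → (ℕ → Bool) → ℂ × ℝ → Prop := fun f g Z => ‖Z.1‖ = 1 ∧
    ∀ k, Fol σ ι v' κ C x' f Z.1 Z.2 k ∧ Fol σ ι v' κ C (rev ι x') g (-Z.1) (-Z.2) k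
  let f := fun c a => wd σ ι v u c a x
  let g := fun c b => wd σ ι v (-u) (-c) b (rev ι x)
  let Z := fun c a b => Classical.epsilon (Q (f c a) (g c b))
  have hZ : ∀ c, Sep u c x → ∀ a b, Q (f c a) (g c b) (Z c a b) := fun c hc a b =>
    Classical.epsilon_spec (line_exists hv' hP hx' fun n =>
      (win_iff crs_sepW hσ hι hv' hx' _ _ n).1 (by
        rw [← dev_fst (v := v) (x := rev ι x) (x' := rev ι x') (congrArg ι e)]
        obtain ⟨u, c, h0, h⟩ := H _ _ _
          ((win_iff crs_sep hσ hι hv hx _ _ n).2 (win_exists hv hu hx hc a b n))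
        exact ⟨u, c, fun k hk => ⟨h0, h k hk⟩⟩))
  have l0 : 0 ≤ l := (norm_nonneg _).trans (hl x.1)
  have uf : ∀ c a b c' a' b', Sep u c x → Sep u c' x → f c a = f c' a' →
      (Z c a b).1 = (Z c' a' b').1 := fun c a b c' a' b' h h' e =>
    fol_uniq hv' hl hκ hx' hx' (hZ c h a b).1 (hZ c' h' a' b').1 0 (fun k => by rw [e]; rfl)
      (fun k => ((hZ c h a b).2 k).1) fun k => ((hZ c' h' a' b').2 k).1
  have ug : ∀ c a b c' a' b', Sep u c x → Sep u c' x → g c b = g c' b' →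
      (Z c a b).1 = (Z c' a' b').1 := fun c a b c' a' b' h h' e => neg_injective
    (fol_uniq hv' hl hκ (hx'.rev hv') (hx'.rev hv') (by simpa using (hZ c h a b).1)
      (by simpa using (hZ c' h' a' b').1) 0 (fun k => by rw [e]; rfl)
      (fun k => ((hZ c h a b).2 k).2) fun k => ((hZ c' h' a' b').2 k).2)
  let m := fun c a b => cr (Z c a b).1 x'.2.1 - (Z c a b).2
  have m0 : ∀ c a b, Sep u c x → 0 ≤ m c a b ∧ m c a b ≤ l := fun c a b h =>
    ⟨sub_nonneg.2 ((hZ c h a b).2 0).1.2.1,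
      sub_le_iff_le_add'.2 (((hZ c h a b).2 0).1.bd hv' hl hx' (hZ c h a b).1).1⟩
  have cmp : ∀ c a b c' a' b' (n : ℕ), Sep u c x → Sep u c' x →
      (∀ y, nb σ v u c' a' y = true → nb σ v u c a y = true) →
      (∀ y, nb σ v (-u) (-c) b y = true → nb σ v (-u) (-c') b' y = true) →
      (∀ i < n, f c a i = f c' a' i) → (∀ i < n, g c' b' i = g c b i) →
      (Z c a b).1 = (Z c' a' b').1 ∨ 3 * l < κ * n - C →
      (κ * n - C - 3 * l) / 2 * ‖(Z c a b).1 - (Z c' a' b').1‖ ≤ m c a b - m c' a' b' := by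
    intro c a b c' a' b' n h h' o1 o2 w1 w2 hn
    obtain ⟨n1, q1⟩ := hZ c h a b
    obtain ⟨n2, q2⟩ := hZ c' h' a' b'
    have sf := fun ne => split hv' hl hκ hx' o1 ne w1 n1 n2 (fun k => (q1 k).1) fun k => (q2 k).1
    have sg := fun ne => split hv' hl hκ (hx'.rev hv') o2 ne w2 (by simpa using n2)
      (by simpa using n1) (fun k => (q2 k).2) fun k => (q1 k).2
    simp only [cr_neg, dt_neg] at sg
    by_cases eq : (Z c a b).1 = (Z c' a' b').1
    · simp only [m, eq, sub_self, norm_zero, mul_zero] at sf sg ⊢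
      by_cases e1 : f c a = f c' a'
      · by_cases e2 : g c' b' = g c b
        · simp only [Z, e1, e2, sub_self, le_refl]
        · obtain ⟨w, s1, -, s2, -⟩ := sg e2
          linarith
      · obtain ⟨w, s1, -, s2, -⟩ := sf e1
        linarith
    obtain ⟨w, s1, s2, s3, -, s4, -⟩ := sf fun e => eq (uf _ _ _ _ _ _ h h' e)
    obtain ⟨z, t1, -, t2, t3, -, t4⟩ := sg fun e => eq (ug _ _ _ _ _ _ h h' e.symm)
    have hn := hn.resolve_left eq
    obtain ⟨k1, k2⟩ := m0 c a b h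
    obtain ⟨k3, k4⟩ := m0 c' a' b' h'
    have d1 := abs_le.1 (hx'.dt_le hl n1)
    obtain ⟨-, r1, r2⟩ := (q1 n).1
    obtain ⟨r3, -, -⟩ := (q1 n).1.bd hv' hl hx' n1
    obtain ⟨-, r4, r5⟩ := (q2 n).1
    obtain ⟨r6, -, -⟩ := (q2 n).1.bd hv' hl hx' n2
    rw [← dev_congr x' w1] at r4 r5 r6
    simp only [m, rev] at k1 k2 k3 k4 t4 ⊢
    have := key_ineq (y := w - x'.2.1) (z := z - x'.2.1) (R := κ * n - C - 2 * l) (B := l)
      (m := m c a b - m c' a' b') n1 n2
      (dt_nonneg (z := (dev σ ι v' x' (f c a) n).2.1 - x'.2.1) (B := l) (R := κ * n - C) n2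
        (by linarith) (by rw [cr_sub, abs_le]; constructor <;> linarith)
        (by rw [cr_sub, abs_le]; constructor <;> linarith) (by rwa [dt_sub]) (by rwa [dt_sub]))
      (by linarith) (by simp only [cr_sub, m]; linarith) (by rw [dt_sub]; linarith)
      (by rw [cr_sub, abs_le]; constructor <;> linarith) (by simp only [cr_sub, m]; linarith)
      (by rw [dt_sub]; linarith) (by rw [cr_sub, abs_le]; constructor <;> linarith)
    simp only [m] at this
    linarith
  have tie : ∀ c a b a' b', Sep u c x → (Z c a b).1 = (Z c a' b').1 := fun c a b a' b' h =>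
    (uf c a b c a b' h h rfl).trans (ug c a b' c a' b' h h rfl)
  have main : ∀ n : ℕ, 3 * l < κ * n - C → ∀ c c', c < c' → Sep u c x → Sep u c' x →
      (κ * n - C - 3 * l) / 2 * ‖(Z c false true).1 - (Z c' true false).1‖ ≤
        m c false true - m c' true false := fun n hn => by
    obtain ⟨V, hV⟩ := (((fin_dev (σ := σ) (ι := ι) (v := v) x n).union
      (fin_dev (σ := σ) (ι := ι) (v := v) (rev ι x) n)).image
        fun y => cr u (third σ v y)).exists_finset_coe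
    suffices ∀ N c c', (V.filter fun t => c < t ∧ t < c').card < N → c < c' → Sep u c x →
        Sep u c' x → (κ * n - C - 3 * l) / 2 * ‖(Z c false true).1 - (Z c' true false).1‖ ≤
          m c false true - m c' true false from fun c c' => this _ c c' (Nat.lt_succ_self _)
    intro N
    induction N with
    | zero => exact fun _ _ h => absurd h (Nat.not_lt_zero _)
    | succ N ih =>
      intro c c' hN hc h h'
      by_cases ex : ∃ t ∈ V, c < t ∧ t < c'
      · obtain ⟨t, t1, t2, t3⟩ := ex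
        have ht : Sep u t x := ⟨h.1.trans t2, t3.trans h'.2⟩
        have sub : ∀ s s', c ≤ s → s' ≤ c' → ¬(s < t ∧ t < s') →
            (V.filter fun t => s < t ∧ t < s').card < N := fun s s' a1 a2 a3 =>
          (Finset.card_lt_card ⟨fun y hy => by
            simp only [Finset.mem_filter] at hy ⊢
            exact ⟨hy.1, a1.trans_lt hy.2.1, hy.2.2.trans_le a2⟩, fun hs =>
              a3 (Finset.mem_filter.1 (hs (Finset.mem_filter.2 ⟨t1, t2, t3⟩))).2⟩).trans_le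
            (Nat.lt_succ_iff.1 hN)
        have i1 := ih c t (sub c t le_rfl t3.le (by simp)) t2 h ht
        have i2 := ih t c' (sub t c' t2.le le_rfl (by simp)) t3 ht h'
        have i3 := cmp t true false t false true 0 ht ht (by simp +contextual [nb])
          (by simp +contextual [nb]) (by simp) (by simp) (.inl (tie _ _ _ _ _ ht))
        rw [tie t true false false true ht] at i1 i3
        have i4 := mul_le_mul_of_nonneg_left (norm_sub_le_norm_sub_add_norm_sub (Z c false true).1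
          (Z t false true).1 (Z c' true false).1) (show 0 ≤ (κ * n - C - 3 * l) / 2 by linarith)
        simp only [sub_self, norm_zero, mul_zero] at i3
        linarith
      · have no : ∀ y ∈ {y | ∃ b, ∃ k < n, y = dev σ ι v x b k} ∪
            {y | ∃ b, ∃ k < n, y = dev σ ι v (rev ι x) b k},
            cr u (third σ v y) ≤ c ∨ c' ≤ cr u (third σ v y) := fun y hy => by
          by_contra hh
          rw [not_or, not_le, not_le] at hh
          exact ex ⟨_, by rw [← Finset.mem_coe, hV]; exact ⟨y, hy, rfl⟩, hh⟩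
        refine cmp c false true c' true false n h h' (fun y => ?_) (fun y => ?_)
          (agree fun b k hk => ?_) (agree fun b k hk => ?_) (.inr hn)
        · simp only [nb, decide_eq_true_eq]; grind
        · simp only [nb, cr_neg, decide_eq_true_eq]; grind
        · have := no _ (.inl ⟨b, k, hk, rfl⟩)
          simp only [nb, decide_eq_decide]; grind
        · have := no _ (.inr ⟨b, k, hk, rfl⟩)
          simp only [nb, cr_neg, decide_eq_decide]; grind
  have same : ∀ c c', c < c' → Sep u c x → Sep u c' x →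
      (Z c true true).1 = (Z c' true true).1 := fun c c' hc h h' => by
    rw [tie c true true false true h, tie c' true true true false h']
    by_contra ne
    have n0 := norm_pos_iff.2 (sub_ne_zero.2 ne)
    have t : Tendsto (fun n : ℕ => κ * n - C) atTop atTop :=
      tendsto_atTop_add_const_right _ _ (tendsto_natCast_atTop_atTop.const_mul_atTop hκ)
    obtain ⟨n, h1, h2⟩ := ((t.eventually_gt_atTop (3 * l)).and (t.eventually_gt_atTop
      (3 * l + 2 * l / ‖(Z c false true).1 - (Z c' true false).1‖))).exists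
    have h3 := main n h1 c c' hc h h'
    rw [← lt_sub_iff_add_lt', div_lt_iff₀ n0] at h2
    linarith [(m0 c false true h).2, (m0 c' true false h').1]
  by_cases ex : ∃ c, Sep u c x
  · obtain ⟨c, hc⟩ := ex
    refine ⟨(Z c true true).1, (hZ c hc _ _).1, fun c' hc' => ⟨(Z c' true true).2, fun k => ?_⟩⟩
    have : (Z c true true).1 = (Z c' true true).1 := by
      rcases lt_trichotomy c c' with h | rfl | h
      exacts [same _ _ h hc hc', rfl, (same _ _ h hc' hc).symm]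
    exact this ▸ ((hZ c' hc' true true).2 k).1
  · exact ⟨1, norm_one, fun c hc => absurd ⟨c, hc⟩ ex⟩

end

end Pool.Agent.Lib.MP_42043b_gt
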