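import Pool.Agent.Lib.MP_42043b_gt.Basic

/-! A line that crosses a chain of triangles advances linearly. -/

namespace Pool.Agent.Lib.MP_42043b_gt

open Filter Topology

variable {E : Type} {σ ι : E → E} {v : E → ℂ}

theorem piv1 {α l g x1 y1 x2 y2 : ℝ} (hα : 0 < α) (hg : 0 < g) (h1 : 0 < y1) (h2 : 0 < y2)
    (l1 : y1 ≤ l) (l2 : y2 ≤ l) (hD : α ≤ x2 * y1 - x1 * y2) :
    g * x1 / y1 + α / (2 * l) * (g / y1 + g / y2) ≤ g * x2 / y2 := by
  have hl : 0 < l := h1.trans_le l1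
  have e : g * x2 / y2 - g * x1 / y1 - α / (2 * l) * (g / y1 + g / y2) =
      g * (2 * l * (x2 * y1 - x1 * y2) - α * (y1 + y2)) / (2 * l * y1 * y2) := by
    field_simp
    ring
  have : 0 ≤ g * (2 * l * (x2 * y1 - x1 * y2) - α * (y1 + y2)) / (2 * l * y1 * y2) :=
    div_nonneg (mul_nonneg hg.le (by nlinarith)) (by positivity)
  linarith

theorem piv2 {α l x1 y1 x2 y2 : ℝ} (hα : 0 < α) (h1 : 0 < y1) (h2 : 0 < y2)
    (l1 : y1 ≤ l) (l2 : y2 ≤ l) (m1 : |x1| ≤ l) (m2 : |x2| ≤ l) (hD : α ≤ x2 * y1 - x1 * y2) :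
    x1 / (|x1| + y1) + α / (4 * l ^ 2) ≤ x2 / (|x2| + y2) := by
  have hl : 0 < l := h1.trans_le l1
  have a1 := abs_nonneg x1
  have a2 := abs_nonneg x2
  have n1 : 0 < |x1| + y1 := by positivity
  have n2 : 0 < |x2| + y2 := by positivity
  have h3 : x1 * |x2| ≤ x2 * |x1| := by
    rcases le_total 0 x1 with s1 | s1 <;> rcases le_total 0 x2 with s2 | s2
    · rw [abs_of_nonneg s1, abs_of_nonneg s2, mul_comm]
    · nlinarith [mul_nonneg s1 h2.le, mul_nonneg (neg_nonneg.2 s2) h1.le]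
    · rw [abs_of_nonpos s1, abs_of_nonneg s2]; nlinarith [mul_nonneg (neg_nonneg.2 s1) s2]
    · rw [abs_of_nonpos s1, abs_of_nonpos s2]; linarith
  have h4 : α / (4 * l ^ 2) ≤ α / ((|x1| + y1) * (|x2| + y2)) :=
    div_le_div_of_nonneg_left hα.le (mul_pos n1 n2)
      ((mul_le_mul (add_le_add m1 l1) (add_le_add m2 l2) n2.le (by positivity)).trans_eq (by ring))
  have h5 : α / ((|x1| + y1) * (|x2| + y2)) ≤ x2 / (|x2| + y2) - x1 / (|x1| + y1) := by
    rw [div_sub_div _ _ n2.ne' n1.ne', mul_comm (|x2| + y2) (|x1| + y1)]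
    exact div_le_div_of_nonneg_right (by nlinarith) (mul_pos n1 n2).le
  linarith

theorem slope_le {x y : ℝ} (hy : 0 < y) : |x / (|x| + y)| ≤ 1 := by
  have : 0 < |x| + y := by positivity
  rw [abs_div, abs_of_pos this, div_le_one this]
  linarith

/-- The potential. -/
noncomputable def pot (K β : ℝ) (s : Bool) (a g p q : ℝ) : ℝ :=
  K * (q + g * (p - q) / (a + g) - β * ((if s then g else a) / (a + g))) +
    (if s then 1 else -1) * ((p - q) / (|p - q| + (a + g)))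

theorem pot_symm {K β a g p q : ℝ} (s : Bool) (h : 0 < a + g) :
    pot K β s a g p q = pot K β (!s) g a q p := by
  have e : q + g * (p - q) / (a + g) = p + a * (q - p) / (a + g) := by field_simp; ring
  have e2 : (q - p) / (|p - q| + (a + g)) = -((p - q) / (|p - q| + (a + g))) := by ring
  cases s <;> simp only [pot, e, add_comm g a, abs_sub_comm q p, e2] <;> simp

theorem pot_true {α l a g a' p q w : ℝ} (s : Bool) (hα : 0 < α) (ha : 0 < a) (hg : 0 < g)
    (ha' : 0 < a') (l1 : a + g ≤ l) (l2 : a' + g ≤ l) (m1 : |p - q| ≤ l) (m2 : |w - q| ≤ l)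
    (hD : α ≤ (w - q) * (a + g) - (p - q) * (a' + g)) :
    pot ((2 + α / (4 * l ^ 2)) / (α / (2 * l))) (α / (2 * l)) s a g p q + α / (4 * l ^ 2) ≤
      pot ((2 + α / (4 * l ^ 2)) / (α / (2 * l))) (α / (2 * l)) true a' g w q := by
  have hl : 0 < l := by linarith
  have h1 := piv1 hα hg (add_pos ha hg) (add_pos ha' hg) l1 l2 hD
  have h2 := piv2 hα (add_pos ha hg) (add_pos ha' hg) l1 l2 m1 m2 hD
  have h3 := abs_le.1 (slope_le (x := p - q) (add_pos ha hg))
  have h4 := abs_le.1 (slope_le (x := w - q) (add_pos ha' hg))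
  have b0 : 0 < α / (2 * l) := by positivity
  have g0 : 0 < α / (4 * l ^ 2) := by positivity
  have e : (2 + α / (4 * l ^ 2)) / (α / (2 * l)) * (α / (2 * l)) = 2 + α / (4 * l ^ 2) :=
    div_mul_cancel₀ _ b0.ne'
  have K0 : 0 < (2 + α / (4 * l ^ 2)) / (α / (2 * l)) := by positivity
  have e2 : a / (a + g) = 1 - g / (a + g) := by field_simp; ring
  have e3 : 0 < g / (a + g) := by positivity
  have h5 := mul_le_mul_of_nonneg_left h1 K0.le
  generalize (2 + α / (4 * l ^ 2)) / (α / (2 * l)) = K at *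
  generalize α / (2 * l) = β at *
  have h6 : 0 < K * (β * (g / (a + g))) := by positivity
  cases s <;> simp only [pot, if_true, Bool.false_eq_true, if_false, e2] <;> nlinarith

theorem pot_near {K β l a g p q : ℝ} (s : Bool) (hK : 0 ≤ K) (hβ : 0 ≤ β) (ha : 0 < a) (hg : 0 < g)
    (m : |p - q| ≤ l) : |pot K β s a g p q - K * p| ≤ K * (l + β) + 1 := by
  have h3 := abs_le.1 (slope_le (x := p - q) (add_pos ha hg))
  have e : q + g * (p - q) / (a + g) = p - a / (a + g) * (p - q) := by field_simp; ring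
  have a1 : 0 ≤ a / (a + g) := by positivity
  have a2 : a / (a + g) ≤ 1 := (div_le_one (add_pos ha hg)).2 (by linarith)
  have g1 : 0 ≤ g / (a + g) := by positivity
  have g2 : g / (a + g) ≤ 1 := (div_le_one (add_pos ha hg)).2 (by linarith)
  have h4 : |a / (a + g) * (p - q)| ≤ l := by
    rw [abs_mul, abs_of_nonneg a1]
    nlinarith [abs_nonneg (p - q)]
  obtain ⟨h5, h6⟩ := abs_le.1 h4
  have h7 := mul_le_mul_of_nonneg_left h5 hK
  have h8 := mul_le_mul_of_nonneg_left h6 hK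
  have h9 := mul_nonneg hK hβ
  rw [abs_le]
  cases s <;> simp only [pot, if_true, Bool.false_eq_true, if_false, e] <;> constructor <;>
    nlinarith

theorem Flat.consts [Finite E] (h : Flat σ ι v) :
    ∃ α l : ℝ, 0 < α ∧ 0 < l ∧ (∀ e, α ≤ cr (v e) (v (σ e))) ∧ ∀ e, ‖v e‖ ≤ l := by
  have h1 : ∀ᶠ a in 𝓝[>] (0 : ℝ), ∀ e, a ≤ cr (v e) (v (σ e)) :=
    eventually_all.2 fun e => (eventually_le_nhds (h.pos e)).filter_mono nhdsWithin_le_nhds
  obtain ⟨α, h2, h3⟩ := (h1.and self_mem_nhdsWithin).exists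
  obtain ⟨l, h4, h5⟩ := ((eventually_all.2 fun e => eventually_ge_atTop ‖v e‖).and
    (eventually_gt_atTop (0 : ℝ))).exists
  exact ⟨α, l, h3, h5, h2, h4⟩

theorem cr_unit {u : ℂ} (hu : ‖u‖ = 1) (a z : ℂ) : cr a z = dt u a * cr u z - cr u a * dt u z := by
  have := unit_sq hu
  simp only [cr, dt]
  linear_combination (-(a.re * z.im - a.im * z.re)) * this

theorem Val.cr_le {l : ℝ} (hl : ∀ e, ‖v e‖ ≤ l) {x : E × ℂ × ℂ} (hx : Val v x) {u : ℂ}
    (hu : ‖u‖ = 1) : |cr u x.2.1 - cr u x.2.2| ≤ l := by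
  rw [abs_sub_comm, ← cr_sub]
  exact (MP_42043b_gt.cr_le _ _).trans (by rw [hu, one_mul, hx]; exact hl _)

theorem Val.dt_le {l : ℝ} (hl : ∀ e, ‖v e‖ ≤ l) {x : E × ℂ × ℂ} (hx : Val v x) {u : ℂ}
    (hu : ‖u‖ = 1) : |dt u x.2.1 - dt u x.2.2| ≤ l := by
  rw [abs_sub_comm, ← dt_sub]
  exact (MP_42043b_gt.dt_le _ _).trans (by rw [hu, one_mul, hx]; exact hl _)

theorem progress [Finite E] (h : Flat σ ι v) : ∃ κ C : ℝ, 0 < κ ∧ 0 ≤ C ∧
    ∀ (x : E × ℂ × ℂ) (b : ℕ → Bool) (n : ℕ) (u : ℂ) (c : ℝ), Val v x → ‖u‖ = 1 →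
      (∀ k ≤ n, SepW u c (dev σ ι v x b k)) →
      κ * n - C ≤ dt u (dev σ ι v x b n).2.1 - dt u x.2.1 := by
  obtain ⟨α0, l0, hα0, hl0, h1, h2⟩ := h.consts
  obtain ⟨ε, hε, hε'⟩ : ∃ ε, 0 < ε ∧ 8 * ε * l0 = α0 :=
    ⟨α0 / (8 * l0), by positivity, by field_simp⟩
  obtain ⟨α, hα', hα⟩ : ∃ α, α = α0 / 2 ∧ 0 < α := ⟨_, rfl, by positivity⟩
  obtain ⟨l, hl', hl⟩ : ∃ l, l = l0 + 2 * ε ∧ 0 < l := ⟨_, rfl, by positivity⟩
  set γ := α / (4 * l ^ 2) with hγ
  set β := α / (2 * l) with hβ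
  set K := (2 + γ) / β with hK
  have g0 : 0 < γ := by positivity
  have b0 : 0 < β := by positivity
  have K0 : 0 < K := by positivity
  refine ⟨γ / K, 2 * (K * (l + β) + 1) / K, by positivity, by positivity,
    fun x b n u c hx hu H => ?_⟩
  let P : Bool → E × ℂ × ℂ → ℝ := fun s y =>
    pot K β s (cr u y.2.1 - c + ε) (c - cr u y.2.2 + ε) (dt u y.2.1) (dt u y.2.2)
  have one : ∀ s t y, Val v y → SepW u c y → SepW u c (step σ ι v t y) →
      P s y + γ ≤ P t (step σ ι v t y) := fun s t y hy ⟨_, s1, s2⟩ ⟨_, s3, s4⟩ => by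
    have a1 := (h1 y.1).trans_eq ((hy.area h).symm.trans (cr_unit hu _ _))
    have c1 := abs_le.1 (hy.cr_le h2 hu)
    have c2 := abs_le.1 ((hy.step h t).cr_le h2 hu)
    have d1 := hy.dt_le h2 hu
    have d2 := (hy.step h t).dt_le h2 hu
    have d3 := mul_le_mul_of_nonneg_left (abs_le.1 d1).1 hε.le
    have d4 := mul_le_mul_of_nonneg_left (abs_le.1 d1).2 hε.le
    have d5 := mul_le_mul_of_nonneg_left (abs_le.1 d2).1 hε.le
    have d6 := mul_le_mul_of_nonneg_left (abs_le.1 d2).2 hε.le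
    replace d1 : _ ≤ l := d1.trans (by linarith)
    replace d2 : _ ≤ l := d2.trans (by linarith)
    simp only [cr_sub, dt_sub] at a1
    cases t
    · simp only [step, Bool.false_eq_true, if_false] at s3 s4 c2 d2 d5 d6 ⊢
      simp only [P]
      rw [pot_symm s (by linarith), pot_symm false (by linarith)]
      exact pot_true _ hα (by linarith) (by linarith) (by linarith) (by linarith) (by linarith)
        (by rwa [abs_sub_comm]) (by rwa [abs_sub_comm]) (by linarith)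
    · simp only [step, if_true] at s3 s4 c2 d2 d5 d6 ⊢
      exact pot_true _ hα (by linarith) (by linarith) (by linarith) (by linarith) (by linarith)
        d1 d2 (by linarith)
  have all : ∀ k ≤ n, ∃ s, P true x + γ * k ≤ P s (dev σ ι v x b k) := fun k hk => by
    induction k with
    | zero => exact ⟨true, by simp [dev]⟩
    | succ k ih =>
      obtain ⟨s, hs⟩ := ih (by omega)
      have := one s (b k) _ (hx.dev h b k) (H k (by omega)) (H _ hk)
      exact ⟨b k, by rw [dev]; push_cast; linarith⟩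
  obtain ⟨s, hs⟩ := all n le_rfl
  have near : ∀ s y, Val v y → SepW u c y → |P s y - K * dt u y.2.1| ≤ K * (l + β) + 1 :=
    fun s y hy ⟨_, s1, s2⟩ => pot_near s K0.le b0.le (by linarith) (by linarith)
      ((hy.dt_le h2 hu).trans (by linarith))
  have n1 := abs_le.1 (near s _ (hx.dev h b n) (H n le_rfl))
  have n2 := abs_le.1 (near true x hx (H 0 n.zero_le))
  rw [div_mul_eq_mul_div, ← sub_div, div_le_iff₀ K0]
  linarith

end Pool.Agent.Lib.MP_42043b_gt
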