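import Pool.Agent.Lib.MP_42043b_gt.Par

/-! The direction in the second metric is the same on all developed sides. -/

namespace Pool.Agent.Lib.MP_42043b_gt

variable {E : Type} {σ ι : E → E} {v v' : E → ℂ} {κ C l : ℝ} {u : ℂ}

/-- The standing hypotheses. -/
structure Ctx (σ ι : E → E) (v v' : E → ℂ) (κ C l : ℝ) : Prop where
  hσ : ∀ e, σ (σ (σ e)) = e
  hι : ∀ e, ι (ι e) = e
  hv : Flat σ ι v
  hv' : Flat σ ι v'
  H : ∀ e b n, Cuts σ ι v e b n → Meets σ ι v' e b n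
  hl : ∀ e, ‖v e‖ ≤ l
  hl' : ∀ e, ‖v' e‖ ≤ l
  hκ : 0 < κ
  hP : Prg σ ι v' κ C

/-- The same side placed for both metrics. -/
def Jt (v v' : E → ℂ) (x x' : E × ℂ × ℂ) : Prop := Val v x ∧ Val v' x' ∧ x.1 = x'.1

/-- Direction attached to a side, crossed either way. -/
def Ed (σ ι : E → E) (v v' : E → ℂ) (κ C : ℝ) (u U : ℂ) (x x' : E × ℂ × ℂ) : Prop :=
  ‖U‖ = 1 ∧ Dir σ ι v v' κ C u U x x' ∧ Dir σ ι v v' κ C u U (rev ι x) (rev ι x')

theorem Jt.rev (X : Ctx σ ι v v' κ C l) {x x' : E × ℂ × ℂ} (h : Jt v v' x x') :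
    Jt v v' (rev ι x) (rev ι x') := ⟨h.1.rev X.hv, h.2.1.rev X.hv', congrArg ι h.2.2⟩

theorem Jt.turn (X : Ctx σ ι v v' κ C l) {x x' : E × ℂ × ℂ} (h : Jt v v' x x') :
    Jt v v' (turn σ v x) (turn σ v' x') := ⟨h.1.turn X.hv, h.2.1.turn X.hv', congrArg σ h.2.2⟩

theorem ed_exists (X : Ctx σ ι v v' κ C l) (hu : ‖u‖ = 1) {x x' : E × ℂ × ℂ} (h : Jt v v' x x') :
    ∃ U, Ed σ ι v v' κ C u U x x' := by
  have ex := fun {x x' : E × ℂ × ℂ} (h : Jt v v' x x') =>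
    dir_exists X.hσ X.hι X.hv X.hv' X.H X.hl' X.hκ X.hP hu h.1 h.2.1 h.2.2
  rcases le_total (cr u x.2.1) (cr u x.2.2) with s | s
  · obtain ⟨U, h1, h2⟩ := ex (h.rev X)
    exact ⟨U, h1, fun c hc => absurd (hc.1.trans hc.2) s.not_gt, h2⟩
  · obtain ⟨U, h1, h2⟩ := ex h
    exact ⟨U, h1, h2, fun c hc => absurd (hc.1.trans hc.2) s.not_gt⟩

theorem nb_of_sep {c : ℝ} {a b : Bool} {x : E × ℂ × ℂ} (h : Sep u c (step σ ι v b x)) :
    nb σ v u c a x = b := by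
  cases b
  · exact decide_eq_false fun h0 => h0.elim h.1.not_gt fun h0 => h.1.ne' h0.1
  · exact decide_eq_true (.inl h.2)

theorem dev_wd_succ (c : ℝ) (a : Bool) (x x' : E × ℂ × ℂ) (k : ℕ) :
    dev σ ι v' x' (wd σ ι v u c a x) (k + 1) = dev σ ι v' (step σ ι v' (nb σ v u c a x) x')
      (wd σ ι v u c a (step σ ι v (nb σ v u c a x) x)) k := by
  rw [dev_succ, funext (wd_succ u c a x)]; rfl

theorem step_same (X : Ctx σ ι v v' κ C l) {x x' : E × ℂ × ℂ} (h : Jt v v' x x') {c : ℝ} {b : Bool}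
    (h1 : Sep u c x) (h2 : Sep u c (step σ ι v b x)) {U W : ℂ} (hU : ‖U‖ = 1) (hW : ‖W‖ = 1)
    (d1 : Dir σ ι v v' κ C u U x x')
    (d2 : Dir σ ι v v' κ C u W (step σ ι v b x) (step σ ι v' b x')) : U = W := by
  obtain ⟨d, hd⟩ := d1 c h1
  obtain ⟨d', hd'⟩ := d2 c h2
  exact fol_uniq X.hv' X.hl' X.hκ h.2.1 (h.2.1.step X.hv' b) hU hW 1
    (fun k => by rw [dev_wd_succ, nb_of_sep h2]) hd hd'

theorem ed_turn (X : Ctx σ ι v v' κ C l) (hu : ‖u‖ = 1) {x x' : E × ℂ × ℂ} (h : Jt v v' x x')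
    (n1 : cr u x.2.1 ≠ cr u x.2.2) (n2 : cr u x.2.2 ≠ cr u (third σ v x))
    {U : ℂ} (hU : Ed σ ι v v' κ C u U x x') :
    Ed σ ι v v' κ C u U (turn σ v x) (turn σ v' x') := by
  have A1 : ∀ {y y' U W}, Jt v v' y y' → cr u y.2.2 < cr u y.2.1 →
      cr u y.2.2 < cr u (third σ v y) → Ed σ ι v v' κ C u U y y' →
      Ed σ ι v v' κ C u W (turn σ v y) (turn σ v' y') → U = W := fun hy a1 a2 e1 e2 => by
    obtain ⟨c, c1, c2⟩ := exists_between (lt_min a1 a2)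
    exact step_same X hy (b := true) ⟨c1, c2.trans_le (min_le_left _ _)⟩
      ⟨c1, c2.trans_le (min_le_right _ _)⟩ e1.1 e2.1 e1.2.1 e2.2.2
  have A2 : ∀ {y y' U W}, Jt v v' y y' → cr u y.2.2 < cr u y.2.1 →
      cr u (third σ v y) < cr u y.2.1 → Ed σ ι v v' κ C u U y y' →
      Ed σ ι v v' κ C u W (turn σ v (turn σ v y)) (turn σ v' (turn σ v' y')) → U = W :=
    fun hy a1 a2 e1 e2 => by
      obtain ⟨c, c1, c2⟩ := exists_between (max_lt a1 a2)
      exact step_same X hy (b := false) ⟨(le_max_left _ _).trans_lt c1, c2⟩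
        ⟨(le_max_right _ _).trans_lt c1, c2⟩ e1.1 e2.1 e1.2.1
        (by rw [step_false X.hv, step_false X.hv']; exact e2.2.2)
  obtain ⟨W, hW⟩ := ed_exists X hu (h.turn X)
  obtain ⟨T, hT⟩ := ed_exists X hu ((h.turn X).turn X)
  have t1 := third_turn X.hv x
  have t2 := turn2 X.hv x
  have t3 := third_turn X.hv (turn σ v x)
  have r := turn3 X.hσ X.hv x
  have r' := turn3 X.hσ X.hv' x'
  suffices U = W from this ▸ hW
  rcases n1.lt_or_gt with a | a <;> rcases n2.lt_or_gt with b | b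
  · exact (A1 ((h.turn X).turn X) (by rw [t2]; exact a.trans b) (by rw [t3, t2]; exact a) hT
      (by rwa [r, r'])).symm.trans (A2 ((h.turn X).turn X) (by rw [t2]; exact a.trans b)
        (by rw [t3, t2]; exact b) hT (by rwa [r, r']))
  · exact (A2 (h.turn X) b (by rw [t1]; exact a) hW (by rwa [r, r'])).symm
  · exact A1 h a b hU hW
  · exact (A2 h a (b.trans a) hU hT).trans
      (A1 (h.turn X) b (by rw [t1]; exact b.trans a) hW hT).symm

theorem Dir.aff {U : ℂ} {x x' : E × ℂ × ℂ} (h : Dir σ ι v v' κ C u U x x') (β β' : ℂ) :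
    Dir σ ι v v' κ C u U (aff 1 β x) (aff 1 β' x') := fun c hc => by
  obtain ⟨c, rfl⟩ : ∃ c', c = c' + cr u β := ⟨c - cr u β, by ring⟩
  obtain ⟨d, hd⟩ := h c (by simpa [Sep, MP_42043b_gt.aff, cr_add] using hc)
  refine ⟨d + cr U β', fun k => ?_⟩
  obtain ⟨a1, a2, a3⟩ := hd k
  rw [wd_aff, Fol, dev_aff]
  simp only [MP_42043b_gt.aff, one_mul, cr_add, dt, Complex.add_re, Complex.add_im] at a3 ⊢
  exact ⟨by linarith, by linarith, by linarith⟩

/-- A side with a rotation, placed at a point. -/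
def plc (v : E → ℂ) (e : E) (ρ β : ℂ) : E × ℂ × ℂ := (e, β, β + ρ * v e)

/-- The rotations seen from the other triangle. -/
noncomputable def revC (ι : E → E) (v v' : E → ℂ) (ω : E × ℂ × ℂ) : E × ℂ × ℂ :=
  (ι ω.1, ω.2.1 * (-v ω.1 / v (ι ω.1)), ω.2.2 * (-v' ω.1 / v' (ι ω.1)))

/-- Sides with a pair of rotations reached from `e` through at most `n` gluings. -/
inductive Reach (σ ι : E → E) (v v' : E → ℂ) (e : E) : ℕ → E × ℂ × ℂ → Prop
  | base : Reach σ ι v v' e 0 (e, 1, 1)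
  | turn {n ω} : Reach σ ι v v' e n ω → Reach σ ι v v' e n (σ ω.1, ω.2)
  | rev {n ω} : Reach σ ι v v' e n ω → Reach σ ι v v' e (n + 1) (revC ι v v' ω)
  | mono {n ω} : Reach σ ι v v' e n ω → Reach σ ι v v' e (n + 1) ω

theorem turn_plc (h : Flat σ ι v) (e : E) (ρ β : ℂ) :
    turn σ v (plc v e ρ β) = plc v (σ e) ρ (β + ρ * v e) := by
  simp [turn, plc, third, h.ne e]

theorem rev_plc (h : Flat σ ι v) (e : E) (ρ β : ℂ) :
    rev ι (plc v e ρ β) = plc v (ι e) (ρ * (-v e / v (ι e))) (β + ρ * v e) := by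
  simp [rev, plc, mul_assoc, h.ne (ι e)]

theorem Reach.unit (X : Ctx σ ι v v' κ C l) {e : E} {n : ℕ} {ω : E × ℂ × ℂ}
    (h : Reach σ ι v v' e n ω) : ‖ω.2.1‖ = 1 ∧ ‖ω.2.2‖ = 1 := by
  induction h with
  | base => simp
  | turn _ ih => exact ih
  | rev _ ih => simp [revC, ih, X.hv.len, X.hv'.len, X.hv.ne, X.hv'.ne]
  | mono _ ih => exact ih

theorem Reach.jt (X : Ctx σ ι v v' κ C l) {e : E} {n : ℕ} {ω : E × ℂ × ℂ}
    (h : Reach σ ι v v' e n ω) (β β' : ℂ) : Jt v v' (plc v ω.1 ω.2.1 β) (plc v' ω.1 ω.2.2 β') := by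
  simp [Jt, Val, plc, h.unit X]

theorem all_ed (X : Ctx σ ι v v' κ C l) (hu : ‖u‖ = 1) (e : E)
    (g : ∀ n ω, Reach σ ι v v' e n ω → cr u (ω.2.1 * v ω.1) ≠ 0) :
    ∃ U, ∀ n ω, Reach σ ι v v' e n ω → ∀ β β',
      Ed σ ι v v' κ C u U (plc v ω.1 ω.2.1 β) (plc v' ω.1 ω.2.2 β') := by
  obtain ⟨U, h1, h2, h3⟩ := ed_exists X hu ((Reach.base (e := e)).jt X 0 0)
  refine ⟨U, fun n ω h => ?_⟩
  induction h with
  | base =>
    intro β β'
    have a := h2.aff β β'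
    have b := h3.aff β β'
    simp only [aff, plc, rev, one_mul, zero_add, mul_zero] at a b ⊢
    exact ⟨h1, by simpa only [add_comm] using a, by simpa only [rev, add_comm] using b⟩
  | @turn n ω h ih =>
    intro β β'
    have a := g _ _ h
    have b := g _ _ h.turn
    have t : ∀ β, third σ v (plc v ω.1 ω.2.1 β) = β + ω.2.1 * v ω.1 + ω.2.1 * v (σ ω.1) :=
      fun β => congrArg (·.2.2) (turn_plc X.hv ω.1 ω.2.1 β)
    have := ed_turn X hu (h.jt X (β - ω.2.1 * v ω.1) (β' - ω.2.2 * v' ω.1))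
      (by simp only [plc, cr_add]; grind) (by rw [t]; simp only [plc, cr_add]; grind) (ih _ _)
    rwa [turn_plc X.hv, turn_plc X.hv', sub_add_cancel, sub_add_cancel] at this
  | @rev n ω h ih =>
    intro β β'
    obtain ⟨a, b, c⟩ := ih (β - ω.2.1 * v ω.1) (β' - ω.2.2 * v' ω.1)
    rw [← rev_rev X.hι (plc v _ _ _), ← rev_rev X.hι (plc v' _ _ _)] at b
    rw [rev_plc X.hv, rev_plc X.hv', sub_add_cancel, sub_add_cancel] at b c
    exact ⟨a, c, b⟩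
  | mono _ ih => exact ih

end Pool.Agent.Lib.MP_42043b_gt
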